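import Pool.Agent.Y244.PC.Zipf

/-!
The sums of the powers of the cluster sizes of a box: confinement of the clusters.
-/

set_option autoImplicit false

namespace Pool.Agent.X135.VT
open Finset H974 Pool.Agent.H160R2.CV Pool.Agent.H160R2.CV.Quad H362P Pool.Agent.Y244.PC

open Classical in
/-- the cluster of `v` in the box -/
noncomputable def cb (n : ℕ) (F : Finset Edg) (v : Vtx) : Finset Vtx :=
  (bx n).filter (fun u => Reach (↑F ∩ ↑(boxE n)) v u)

theorem mem_cb {n : ℕ} {F : Finset Edg} {v u : Vtx} :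
    u ∈ cb n F v ↔ u ∈ bx n ∧ Reach (↑F ∩ ↑(boxE n)) v u := by
  classical
  unfold cb
  simp only [Finset.mem_filter]

theorem cb_mono {n : ℕ} {F G : Finset Edg} (h : F ⊆ G) (v : Vtx) : cb n F v ⊆ cb n G v := by
  intro u hu
  rw [mem_cb] at hu ⊢
  exact ⟨hu.1, hu.2.mono (Set.inter_subset_inter_left _ (by exact_mod_cast h))⟩

theorem cb_local (n : ℕ) (F : Finset Edg) (v : Vtx) : cb n F v = cb n (F ∩ boxE n) v := by
  ext u
  rw [mem_cb, mem_cb, coe_inter_eq (Finset.Subset.refl (boxE n))]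

theorem self_mem {n : ℕ} {F : Finset Edg} {v : Vtx} (hv : v ∈ bx n) : v ∈ cb n F v := by
  rw [mem_cb]
  exact ⟨hv, Reach.refl _ _⟩

/-- the sum of the `s`-th powers of the sizes of the clusters of the vertices -/
noncomputable def Sm (s : ℝ) (n : ℕ) (F : Finset Edg) : ℝ :=
  ∑ v ∈ bx n, ((cb n F v).card : ℝ) ^ s

/-- the truncated sum -/
noncomputable def Tm (s N : ℝ) (n : ℕ) (F : Finset Edg) : ℝ :=
  ∑ v ∈ bx n, (min ((cb n F v).card : ℝ) N) ^ s

theorem Tm_mono {s N : ℝ} (hs : 0 ≤ s) (hN : 0 ≤ N) {n : ℕ} {F G : Finset Edg} (h : F ⊆ G) :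
    Tm s N n F ≤ Tm s N n G := by
  unfold Tm
  apply Finset.sum_le_sum
  intro v _
  apply Real.rpow_le_rpow (by positivity) _ hs
  apply min_le_min_right
  exact_mod_cast Finset.card_le_card (cb_mono h v)

theorem Tm_local (s N : ℝ) (n : ℕ) (F : Finset Edg) : Tm s N n F = Tm s N n (F ∩ boxE n) := by
  unfold Tm
  apply Finset.sum_congr rfl
  intro v _
  rw [← cb_local]

theorem Sm_local (s : ℝ) (n : ℕ) (F : Finset Edg) : Sm s n F = Sm s n (F ∩ boxE n) := by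
  unfold Sm
  apply Finset.sum_congr rfl
  intro v _
  rw [← cb_local]

/-- a confined cluster is a cluster of a cell -/
theorem conf_cell {n m K : ℕ} (hm : 1 ≤ m) (hK : 2 * n + 1 ≤ 3 * m * K) {F : Finset Edg}
    (hV : ∀ i ∈ range (K + 1), ¬ LRc (sx n m i) (sx n m i + 3 * m) (-(n : ℤ)) n F)
    (hH : ∀ i ∈ range (K + 1), ¬ TBc (-(n : ℤ)) n (sx n m i) (sx n m i + 3 * m) F)
    {v : Vtx} (hv : v ∈ bx n) : ∃ q ∈ range K ×ˢ range K, v - ce n m q.1 q.2 ∈ bx (3 * m) ∧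
      (cb n F v).card ≤ (cb (3 * m) (sh (ce n m q.1 q.2) F) (v - ce n m q.1 q.2)).card := by
  classical
  have hm' : (1 : ℤ) ≤ m := by exact_mod_cast hm
  set C : Finset Vtx := cb n F v with hC
  have hvC : v ∈ C := self_mem hv
  have hCb : C ⊆ bx n := fun u hu => (mem_cb.mp hu).1
  have hCC : ∀ u ∈ C, ∀ w ∈ C, Reach (↑F ∩ ↑(boxE n)) u w := by
    intro u hu w hw
    exact (mem_cb.mp hu).2.symm.trans (mem_cb.mp hw).2
  have hbE : ∀ {x y : ℤ} {b : Bool}, ((x, y, b) : Edg) ∈ (↑F ∩ ↑(boxE n) : Set Edg) →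
      -(n : ℤ) ≤ x ∧ x ≤ n ∧ -(n : ℤ) ≤ y ∧ y ≤ n ∧ (b = true → x < n) ∧ (b = false → y < n) := by
    rintro x y b ⟨-, h⟩
    rw [Finset.mem_coe] at h
    unfold boxE at h
    cases b
    · rw [mem_RE_false] at h
      refine ⟨h.1, h.2.1, h.2.2.1, h.2.2.2.le, fun h' => by simp at h', fun _ => h.2.2.2⟩
    · rw [mem_RE_true] at h
      refine ⟨h.1, h.2.1.le, h.2.2.1, h.2.2.2, fun _ => h.2.1, fun h' => by simp at h'⟩
  obtain ⟨i, hi, hi2⟩ := confine hm hK ⟨v, hvC⟩ hCb (fun u => u.1)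
    (fun u hu => (w_mem_bx.mp hu).1) (by
    intro i hi u hu w hw h1 h2
    obtain ⟨y1, y2, k1, k2, k3, -⟩ := sub_LR (a := sx n m i) (b := sx n m i + 3 * m)
      (c := -(n : ℤ)) (d := n) (by omega)
      (by
        intro x y hxy _ _
        have := hbE hxy
        exact ⟨this.2.2.1, this.2.2.2.1⟩)
      (by
        intro x y hxy _ _
        have := hbE hxy
        exact ⟨this.2.2.1, this.2.2.2.2.2 rfl⟩) (hCC u hu w hw) h1 h2
    refine hV i (by rw [Finset.mem_range]; omega) ⟨y1, y2, k1, k2, k3.mono ?_⟩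
    rintro e ⟨⟨h7, -⟩, h8⟩
    exact ⟨h7, h8⟩)
  obtain ⟨j, hj, hj2⟩ := confine hm hK ⟨v, hvC⟩ hCb (fun u => u.2)
    (fun u hu => (w_mem_bx.mp hu).2) (by
    intro i hi u hu w hw h1 h2
    obtain ⟨y1, y2, k1, k2, k3, -⟩ := sub_TB (a := -(n : ℤ)) (b := n)
      (c := sx n m i) (d := sx n m i + 3 * m) (by omega)
      (by
        intro x y hxy _ _
        have := hbE hxy
        exact ⟨this.1, this.2.1⟩)
      (by
        intro x y hxy _ _
        have := hbE hxy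
        exact ⟨this.1, this.2.2.2.2.1 rfl⟩) (hCC u hu w hw) h1 h2
    refine hH i (by rw [Finset.mem_range]; omega) ⟨y1, y2, k1, k2, k3.mono ?_⟩
    rintro e ⟨⟨h7, -⟩, h8⟩
    exact ⟨h7, h8⟩)
  have hCe : ∀ u ∈ C, inR (sx n m i) (sx n m i + 6 * m) (sx n m j) (sx n m j + 6 * m) u :=
    fun u hu => ⟨hi2 u hu, hj2 u hu⟩
  have hbo : bo (ce n m i j) (3 * m) =
      RE (sx n m i) (sx n m i + 6 * m) (sx n m j) (sx n m j + 6 * m) := by
    unfold bo ce
    congr 1 <;> push_cast <;> ring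
  have key : ∀ w, Reach (↑F ∩ ↑(boxE n)) v w →
      Reach (↑F ∩ ↑(bo (ce n m i j) (3 * m))) v w := by
    intro w hw
    induction hw with
    | refl => exact Reach.refl _ _
    | @tail w w' hw hs ih =>
      refine ih.trans (Adj.reach ?_)
      have hwC : w ∈ C := by
        rw [hC, mem_cb]
        exact ⟨w_reach_bx hv hw, hw⟩
      have hw'C : w' ∈ C := by
        have h9 : Reach (↑F ∩ ↑(boxE n)) v w' := Relation.ReflTransGen.tail hw hs
        rw [hC, mem_cb]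
        exact ⟨w_reach_bx hv h9, h9⟩
      obtain ⟨e, ⟨heF, -⟩, hcase⟩ := hs
      refine ⟨e, ⟨heF, ?_⟩, hcase⟩
      rw [Finset.mem_coe, hbo, mem_RE_iff]
      rcases hcase with ⟨h1, h2⟩ | ⟨h1, h2⟩
      · rw [h1, h2]
        exact ⟨hCe w hwC, hCe w' hw'C⟩
      · rw [h1, h2]
        exact ⟨hCe w' hw'C, hCe w hwC⟩
  have hin : ∀ u ∈ C, u - ce n m i j ∈ bx (3 * m) := by
    intro u hu
    have h := hCe u hu
    unfold inR at h
    rw [w_mem_bx]
    unfold ce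
    simp only [Prod.fst_sub, Prod.snd_sub]
    push_cast
    omega
  refine ⟨(i, j), by rw [Finset.mem_product, Finset.mem_range, Finset.mem_range]; exact ⟨hi, hj⟩,
    hin v hvC, ?_⟩
  apply Finset.card_le_card_of_injOn (fun u => u - ce n m i j)
  · intro u hu
    rw [Finset.mem_coe] at hu ⊢
    rw [mem_cb]
    refine ⟨hin u hu, ?_⟩
    rw [sh_reach_box, sub_add_cancel, sub_add_cancel]
    exact key u (mem_cb.mp hu).2
  · intro u _ w _ h
    exact sub_left_inj.mp h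

theorem Sm_le {s : ℝ} (hs : 0 ≤ s) {n m K : ℕ} (hm : 1 ≤ m) (hK : 2 * n + 1 ≤ 3 * m * K)
    {F : Finset Edg}
    (hV : ∀ i ∈ range (K + 1), ¬ LRc (sx n m i) (sx n m i + 3 * m) (-(n : ℤ)) n F)
    (hH : ∀ i ∈ range (K + 1), ¬ TBc (-(n : ℤ)) n (sx n m i) (sx n m i + 3 * m) F) :
    Sm s n F ≤ ∑ q ∈ range K ×ˢ range K, Sm s (3 * m) (sh (ce n m q.1 q.2) F) := by
  classical
  have h1 : ∀ v ∈ bx n, ((cb n F v).card : ℝ) ^ s ≤ ∑ q ∈ range K ×ˢ range K,
      (if v - ce n m q.1 q.2 ∈ bx (3 * m) then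
        ((cb (3 * m) (sh (ce n m q.1 q.2) F) (v - ce n m q.1 q.2)).card : ℝ) ^ s else 0) := by
    intro v hv
    obtain ⟨q, hq, h2, h3⟩ := conf_cell hm hK hV hH hv
    have h4 := Finset.single_le_sum (f := fun q : ℕ × ℕ =>
      (if v - ce n m q.1 q.2 ∈ bx (3 * m) then
        ((cb (3 * m) (sh (ce n m q.1 q.2) F) (v - ce n m q.1 q.2)).card : ℝ) ^ s else 0))
      (fun q _ => by positivity) hq
    refine le_trans ?_ h4
    rw [if_pos h2]
    exact Real.rpow_le_rpow (by positivity) (by exact_mod_cast h3) hs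
  refine (Finset.sum_le_sum h1).trans ?_
  rw [Finset.sum_comm]
  apply Finset.sum_le_sum
  intro q _
  unfold Sm
  rw [← Finset.sum_filter]
  calc ∑ v ∈ (bx n).filter (fun v => v - ce n m q.1 q.2 ∈ bx (3 * m)),
      ((cb (3 * m) (sh (ce n m q.1 q.2) F) (v - ce n m q.1 q.2)).card : ℝ) ^ s
      = ∑ w ∈ ((bx n).filter (fun v => v - ce n m q.1 q.2 ∈ bx (3 * m))).image
          (fun v => v - ce n m q.1 q.2),
          ((cb (3 * m) (sh (ce n m q.1 q.2) F) w).card : ℝ) ^ s := by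
        rw [Finset.sum_image]
        intro u _ w _ h
        exact sub_left_inj.mp h
    _ ≤ _ := by
        apply Finset.sum_le_sum_of_subset_of_nonneg
        · intro w hw
          rw [Finset.mem_image] at hw
          obtain ⟨v, hv, rfl⟩ := hw
          exact (Finset.mem_filter.mp hv).2
        · intro w _ _
          positivity

/-- all the decreasing events at once -/
theorem fkg_all {n m K : ℕ} {S : Finset Edg} {c q0 : ℝ} (hc : 0 ≤ c) (hq : 0 ≤ q0)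
    (A : ℕ × ℕ → Finset Edg → Prop) (hA : ∀ q, DecrE S (A q))
    (hL : ∀ i ∈ range (K + 1), q0 ≤ Pr P S
      (fun F => ¬ LRc (sx n m i) (sx n m i + 3 * m) (-(n : ℤ)) n F))
    (hT : ∀ i ∈ range (K + 1), q0 ≤ Pr P S
      (fun F => ¬ TBc (-(n : ℤ)) n (sx n m i) (sx n m i + 3 * m) F))
    (hCt : ∀ q ∈ range K ×ˢ range K, c ≤ Pr P S (A q)) :
    q0 ^ (K + 1) * q0 ^ (K + 1) * c ^ (K * K) ≤ Pr P S (fun F =>
      ((∀ i ∈ range (K + 1), ¬ LRc (sx n m i) (sx n m i + 3 * m) (-(n : ℤ)) n F) ∧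
      (∀ i ∈ range (K + 1), ¬ TBc (-(n : ℤ)) n (sx n m i) (sx n m i + 3 * m) F)) ∧
      ∀ q ∈ range K ×ˢ range K, A q F) := by
  have d1 : ∀ i, DecrE S (fun F => ¬ LRc (sx n m i) (sx n m i + 3 * m) (-(n : ℤ)) n F) :=
    fun i => decr_not (LRc_incr _ _ _ _ _)
  have d2 : ∀ i, DecrE S (fun F => ¬ TBc (-(n : ℤ)) n (sx n m i) (sx n m i + 3 * m) F) :=
    fun i => decr_not (TBc_incr _ _ _ _ _)
  have f1 := fkg_decr w_ok (S := S) (range (K + 1))
    (fun i F => ¬ LRc (sx n m i) (sx n m i + 3 * m) (-(n : ℤ)) n F) (fun i _ => d1 i)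
  have f2 := fkg_decr w_ok (S := S) (range (K + 1))
    (fun i F => ¬ TBc (-(n : ℤ)) n (sx n m i) (sx n m i + 3 * m) F) (fun i _ => d2 i)
  have f3 := fkg_decr w_ok (S := S) (range K ×ˢ range K) A (fun q _ => hA q)
  have g1 := (pow_card_le_prod (range (K + 1)) _ hq hL).trans f1
  have g2 := (pow_card_le_prod (range (K + 1)) _ hq hT).trans f2
  have g3 := (pow_card_le_prod (range K ×ˢ range K) _ hc hCt).trans f3
  rw [Finset.card_range] at g1 g2
  rw [Finset.card_product, Finset.card_range] at g3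
  have hall : ∀ {ι : Type} (I : Finset ι) (A : ι → Finset Edg → Prop), (∀ i, DecrE S (A i)) →
      DecrE S (fun F => ∀ i ∈ I, A i F) := by
    intro ι I A hA F G hFG hG h h'
    apply h
    intro i hi
    by_contra h4
    exact hA i F G hFG hG h4 (h' i hi)
  have i1 := hall (range (K + 1))
    (fun i F => ¬ LRc (sx n m i) (sx n m i + 3 * m) (-(n : ℤ)) n F) d1
  have i2 := hall (range (K + 1))
    (fun i F => ¬ TBc (-(n : ℤ)) n (sx n m i) (sx n m i + 3 * m) F) d2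
  have i3 := hall (range K ×ˢ range K) A hA
  have j1 := harris_dec2 w_ok i1 i2
  have i12 : DecrE S (fun F =>
      (∀ i ∈ range (K + 1), ¬ LRc (sx n m i) (sx n m i + 3 * m) (-(n : ℤ)) n F) ∧
      (∀ i ∈ range (K + 1), ¬ TBc (-(n : ℤ)) n (sx n m i) (sx n m i + 3 * m) F)) := by
    intro F G hFG hG h h'
    apply h
    constructor
    · by_contra h4
      exact i1 F G hFG hG h4 h'.1
    · by_contra h4
      exact i2 F G hFG hG h4 h'.2
  have j2 := harris_dec2 w_ok i12 i3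
  have p1 : 0 ≤ q0 ^ (K + 1) := pow_nonneg hq _
  have p3 : 0 ≤ c ^ (K * K) := pow_nonneg hc _
  have k1 := (mul_le_mul g1 g2 p1 (p1.trans g1)).trans j1
  exact (mul_le_mul k1 g3 p3 ((mul_nonneg p1 p1).trans k1)).trans j2

/-- a decreasing local event of probability at least `1/2` in all cells, with confinement -/
theorem conf_gen : ∃ d : ℝ, 0 < d ∧ d < 1 ∧ ∀ n m K : ℕ, 1 ≤ m → 1 ≤ K →
    2 * n + 1 ≤ 3 * m * K → 3 * m * K ≤ 2 * n + 3 * m → ∀ B : Finset Edg → Prop,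
    (∀ F G : Finset Edg, F ⊆ G → B F → B G) → (∀ F, B F ↔ B (F ∩ boxE (3 * m))) →
    1 / 2 ≤ 1 - Pr P (boxE (3 * m)) B →
    d ^ (K ^ 2) ≤ Pr P (boxE (n + 6 * m)) (fun F =>
      ((∀ i ∈ range (K + 1), ¬ LRc (sx n m i) (sx n m i + 3 * m) (-(n : ℤ)) n F) ∧
      (∀ i ∈ range (K + 1), ¬ TBc (-(n : ℤ)) n (sx n m i) (sx n m i + 3 * m) F)) ∧
      ∀ q ∈ range K ×ˢ range K, ¬ B (sh (ce n m q.1 q.2) F)) := by
  obtain ⟨b, hb⟩ : ∃ b : ℝ, b = 1 / 2 := ⟨_, rfl⟩
  have hb0 : 0 < b := by rw [hb]; norm_num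
  have hb1 : b < 1 := by rw [hb]; norm_num
  have hbp : 0 < b ^ 1316 := pow_pos hb0 _
  have hbp1 : b ^ 1316 < 1 := pow_lt_one₀ hb0.le hb1 (by norm_num)
  obtain ⟨d, hd⟩ : ∃ d : ℝ, d = b ^ 1316 := ⟨_, rfl⟩
  rw [← hd] at hbp hbp1
  refine ⟨b * d, mul_pos hb0 hbp, by nlinarith, ?_⟩
  intro n m K hm hK1 hK hK2 B hB hloc hpr
  obtain ⟨q0, hq0⟩ : ∃ q0 : ℝ, q0 = b ^ (141 * (2 * K) + 47) := ⟨_, rfl⟩
  have hq00 : 0 ≤ q0 := by rw [hq0]; exact pow_nonneg hb0.le _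
  have hm' : (1 : ℤ) ≤ m := by exact_mod_cast hm
  have hstrip : q0 ≤ 1 - hh (1 / 2) (3 * (m : ℤ)) (2 * n) := by
    rw [hq0, hb]
    apply no_cross (m := m) (by omega) (2 * K) (by omega) (by omega)
    push_cast
    have : (2 * (n : ℤ) + 1) ≤ 3 * m * K := by exact_mod_cast hK
    have h2 : (0 : ℤ) ≤ m * K := by positivity
    linarith
  have hall := fkg_all (n := n) (m := m) (K := K) (S := boxE (n + 6 * m)) hb0.le
    hq00 (fun q F => ¬ B (sh (ce n m q.1 q.2) F))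
    (fun q => decr_not (fun F G h _ hF => hB _ _ (sh_mono h) hF))
    (fun i hi => by
      rw [strip_noLR hK2 (by rw [Finset.mem_range] at hi; omega)]
      exact hstrip)
    (fun i hi => by
      rw [strip_noTB hK2 (by rw [Finset.mem_range] at hi; omega)]
      exact hstrip)
    (fun q hq => by
      rw [Finset.mem_product, Finset.mem_range, Finset.mem_range] at hq
      have hS := ce_bo hK2 hq.1 hq.2
      have hl : ∀ F : Finset Edg, B (sh (ce n m q.1 q.2) F) ↔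
          B (sh (ce n m q.1 q.2) (F ∩ bo (ce n m q.1 q.2) (3 * m))) := by
        intro F
        rw [sh_inter, sh_bo]
        exact hloc _
      rw [Pr_not]
      have h1 : Pr P (boxE (n + 6 * m)) (fun F => B (sh (ce n m q.1 q.2) F)) =
          Pr P (bo (ce n m q.1 q.2) (3 * m)) (fun F => B (sh (ce n m q.1 q.2) F)) :=
        Pr_local hS (A := fun F => B (sh (ce n m q.1 q.2) F)) (fun F _ => hl F)
      have h2 := pr_sh (ce n m q.1 q.2) (bo (ce n m q.1 q.2) (3 * m)) B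
      rw [h1, h2, sh_bo, hb]
      exact hpr)
  have k3 : d ^ (K ^ 2) ≤ q0 ^ (K + 1) * q0 ^ (K + 1) := by
    rw [hd, hq0, ← pow_mul, ← pow_mul, ← pow_add]
    apply pow_le_pow_of_le_one hb0.le hb1.le
    nlinarith
  refine le_trans ?_ hall
  calc (b * d) ^ (K ^ 2) = d ^ (K ^ 2) * b ^ (K * K) := by rw [mul_pow, mul_comm, sq K]
    _ ≤ q0 ^ (K + 1) * q0 ^ (K + 1) * b ^ (K * K) :=
        mul_le_mul_of_nonneg_right k3 (pow_nonneg hb0.le _)

end Pool.Agent.X135.VT
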