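import Pool.Agent.X135.VT.Conf

/-!
The sums of the powers of the cluster sizes of a box: moments, and the lower bound of the lower
tail.
-/

set_option autoImplicit false

namespace Pool.Agent.X135.VT
open Finset H974 Pool.Agent.H160R2.CV Pool.Agent.H160R2.CV.Quad H362P Pool.Agent.Y244.PC
  Pool.Agent.H389R2.CD

theorem pt_tail (hAr : ArS) : ∃ C : ℝ, 0 < C ∧ ∀ (n : ℕ) (v : Vtx) (S : Finset Edg) (V : ℝ),
    1 ≤ V → Pr P S (fun F => V ≤ ((cb n F v).card : ℝ)) ≤ C * V ^ (-(5 / 91 : ℝ)) := by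
  obtain ⟨C1, hC1, h1⟩ := vol_upper
  obtain ⟨c0, C0, hc0, hC0, har⟩ := hAr
  refine ⟨C0 + C1 * (4 * C0 ^ 2), by positivity, fun n v S V hV => ?_⟩
  have hV0 : 0 < V := by linarith
  set y : ℝ := V ^ (48 / 91 : ℝ) with hy
  have hy1 : 1 ≤ y := Real.one_le_rpow hV (by norm_num)
  set r : ℕ := ⌈y⌉₊ with hr
  have hyr : y ≤ r := Nat.le_ceil y
  have hr1 : 1 ≤ r := by exact_mod_cast hy1.trans hyr
  have hry : (r : ℝ) ≤ 2 * y := (Nat.ceil_lt_add_one (by linarith)).le.trans (by linarith)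
  have h2 : Pr P S (fun F => V ≤ ((cb n F v).card : ℝ)) ≤ Pr P (sh v S) (fun F => Vol V ↑F) := by
    rw [← pr_sh v S (fun F => Vol V ↑F)]
    apply Pr_mono w_ok
    intro F _ hF
    refine ⟨(cb n F v).map (addRightEmbedding (-v)), ?_, ?_⟩
    · rwa [Finset.card_map]
    · intro u hu
      rw [Finset.mem_map] at hu
      obtain ⟨w, hw, rfl⟩ := hu
      rw [sh_reach]
      have e : addRightEmbedding (-v) w + v = w := by
        show w + -v + v = w
        rw [add_assoc, neg_add_cancel, add_zero]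
      have e0 : ((0, 0) : Vtx) + v = v := zero_add v
      rw [e, e0]
      exact (mem_cb.mp hw).2.mono Set.inter_subset_left
  have h3 := h1 r hr1 V hV0 (sh v S)
  have ha := (har r hr1).2
  have ha0 := ar_pos r
  have e1 : (r : ℝ) ^ (-(5 / 48 : ℝ)) ≤ V ^ (-(5 / 91 : ℝ)) := by
    calc (r : ℝ) ^ (-(5 / 48 : ℝ)) ≤ y ^ (-(5 / 48 : ℝ)) :=
          Real.rpow_le_rpow_of_nonpos (by linarith) hyr (by norm_num)
      _ = V ^ (-(5 / 91 : ℝ)) := by
          rw [hy, ← Real.rpow_mul hV0.le]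
          norm_num
  have e2 : ar r ≤ C0 * V ^ (-(5 / 91 : ℝ)) := ha.trans (mul_le_mul_of_nonneg_left e1 hC0.le)
  have e3 : (r : ℝ) ^ 2 * ar r ^ 2 / V ≤ 4 * C0 ^ 2 * V ^ (-(5 / 91 : ℝ)) := by
    rw [div_le_iff₀ hV0]
    calc (r : ℝ) ^ 2 * ar r ^ 2 ≤ (2 * y) ^ 2 * (C0 * V ^ (-(5 / 91 : ℝ))) ^ 2 := by
          apply mul_le_mul (pow_le_pow_left₀ (by positivity) hry 2)
            (pow_le_pow_left₀ ha0.le e2 2) (by positivity) (by positivity)
      _ = 4 * C0 ^ 2 * (y ^ 2 * (V ^ (-(5 / 91 : ℝ))) ^ 2) := by ring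
      _ = 4 * C0 ^ 2 * V ^ (-(5 / 91 : ℝ)) * V := by
          have e4 : y ^ 2 * (V ^ (-(5 / 91 : ℝ))) ^ 2 = V ^ (-(5 / 91 : ℝ)) * V := by
            rw [hy, ← Real.rpow_natCast (V ^ (48 / 91 : ℝ)) 2,
              ← Real.rpow_natCast (V ^ (-(5 / 91 : ℝ))) 2, ← Real.rpow_mul hV0.le,
              ← Real.rpow_mul hV0.le, ← Real.rpow_add hV0]
            nth_rewrite 3 [← Real.rpow_one V]
            rw [← Real.rpow_add hV0]
            norm_num
          rw [e4]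
          ring
  calc _ ≤ _ := h2
    _ ≤ ar r + C1 * ((r : ℝ) ^ 2 * ar r ^ 2) / V := h3
    _ = ar r + C1 * ((r : ℝ) ^ 2 * ar r ^ 2 / V) := by ring
    _ ≤ C0 * V ^ (-(5 / 91 : ℝ)) + C1 * (4 * C0 ^ 2 * V ^ (-(5 / 91 : ℝ))) :=
        add_le_add e2 (mul_le_mul_of_nonneg_left e3 hC1.le)
    _ = _ := by ring

theorem trunc_mom (hAr : ArS) {s : ℝ} (hs : 5 / 91 < s) : ∃ C : ℝ, 0 < C ∧ ∀ (n : ℕ) (v : Vtx),
    v ∈ bx n → ∀ (S : Finset Edg) (N : ℝ), 1 ≤ N →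
    Ex P S (fun F => (min ((cb n F v).card : ℝ) N) ^ s) ≤ C * N ^ (s - 5 / 91) := by
  obtain ⟨C, hC, ht⟩ := pt_tail hAr
  have hs0 : 0 < s := by linarith
  have hd : 0 < s - 5 / 91 := by linarith
  set ρ : ℝ := (2 : ℝ) ^ (s - 5 / 91) with hρ
  have hρ1 : 1 < ρ := Real.one_lt_rpow (by norm_num) hd
  have hρ0 : 0 < ρ := by linarith
  refine ⟨C * 2 ^ s * (ρ / (ρ - 1)), by
    have : 0 < ρ - 1 := by linarith
    positivity, fun n v hv S N hN => ?_⟩
  set M : ℕ := ⌊N⌋₊ with hM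
  have hM1 : 1 ≤ M := Nat.one_le_floor_iff N |>.mpr hN
  set J : ℕ := Nat.log 2 M with hJ
  have hJN : (2 : ℝ) ^ J ≤ N := by
    have h1 : 2 ^ J ≤ M := Nat.pow_log_le_self 2 (by omega)
    have h2 : (M : ℝ) ≤ N := Nat.floor_le (by linarith)
    refine le_trans ?_ h2
    exact_mod_cast h1
  have key : Ex P S (fun F => (min ((cb n F v).card : ℝ) N) ^ s) ≤
      Ex P S (fun F => ∑ j ∈ range (J + 1), ((2 : ℝ) ^ (j + 1)) ^ s *
        ind ((2 : ℝ) ^ j ≤ ((cb n F v).card : ℝ))) := by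
    apply Ex_mono w_ok
    intro F _
    set X : ℕ := (cb n F v).card with hX
    have hX1 : 1 ≤ X := Finset.card_pos.mpr ⟨v, self_mem hv⟩
    set j0 : ℕ := Nat.log 2 (min X M) with hj0
    have h1 : 2 ^ j0 ≤ min X M := Nat.pow_log_le_self 2 (by omega)
    have h2 : min X M < 2 ^ (j0 + 1) := Nat.lt_pow_succ_log_self (by norm_num) _
    have h3 : j0 ≤ J := Nat.log_mono_right (min_le_right _ _)
    have h4 : min (X : ℝ) N ≤ 2 ^ (j0 + 1) := by
      rcases le_or_gt X M with h | h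
      · rw [min_eq_left h] at h2
        refine (min_le_left _ _).trans ?_
        exact_mod_cast h2.le
      · rw [min_eq_right h.le] at h2
        refine (min_le_right _ _).trans ((Nat.lt_floor_add_one N).le.trans ?_)
        exact_mod_cast h2
    have h5 : (2 : ℝ) ^ j0 ≤ X := by exact_mod_cast h1.trans (min_le_left _ _)
    have h6 := Finset.single_le_sum (f := fun j : ℕ => ((2 : ℝ) ^ (j + 1)) ^ s *
        ind ((2 : ℝ) ^ j ≤ (X : ℝ))) (s := range (J + 1))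
        (fun j _ => mul_nonneg (by positivity) (ind_nonneg _))
        (Finset.mem_range.mpr (Nat.lt_succ_of_le h3))
    refine le_trans ?_ h6
    rw [ind_of h5, mul_one]
    exact Real.rpow_le_rpow (le_min (by positivity) (by linarith)) h4 hs0.le
  refine key.trans ?_
  rw [Ex_sum]
  have h7 : ∀ j ∈ range (J + 1), Ex P S (fun F => ((2 : ℝ) ^ (j + 1)) ^ s *
      ind ((2 : ℝ) ^ j ≤ ((cb n F v).card : ℝ))) ≤ C * 2 ^ s * ρ ^ j := by
    intro j _
    rw [Ex_mul_left]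
    have h8 := ht n v S ((2 : ℝ) ^ j) (one_le_pow₀ (by norm_num))
    unfold Pr at h8
    refine (mul_le_mul_of_nonneg_left h8 (by positivity)).trans (le_of_eq ?_)
    have e1 : ((2 : ℝ) ^ (j + 1)) ^ s = 2 ^ s * ((2 : ℝ) ^ j) ^ s := by
      rw [pow_succ, mul_comm, Real.mul_rpow (by norm_num) (by positivity)]
    have e2 : ρ ^ j = ((2 : ℝ) ^ j) ^ s * ((2 : ℝ) ^ j) ^ (-(5 / 91 : ℝ)) := by
      rw [← Real.rpow_add (by positivity), hρ, ← Real.rpow_natCast ((2 : ℝ) ^ (s - 5 / 91)) j,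
        ← Real.rpow_mul (by norm_num), ← Real.rpow_natCast (2 : ℝ) j,
        ← Real.rpow_mul (by norm_num)]
      congr 1
      ring
    rw [e1, e2]
    ring
  refine (Finset.sum_le_sum h7).trans ?_
  rw [← Finset.mul_sum, geom_sum_eq hρ1.ne']
  have h9 : ρ ^ J ≤ N ^ (s - 5 / 91) := by
    have e3 : ρ ^ J = ((2 : ℝ) ^ J) ^ (s - 5 / 91) := by
      rw [hρ, ← Real.rpow_natCast ((2 : ℝ) ^ (s - 5 / 91)) J, ← Real.rpow_mul (by norm_num),
        ← Real.rpow_natCast (2 : ℝ) J, ← Real.rpow_mul (by norm_num)]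
      congr 1
      ring
    rw [e3]
    exact Real.rpow_le_rpow (by positivity) hJN hd.le
  have hρ2 : 0 < ρ - 1 := by linarith
  have h10 : (ρ ^ (J + 1) - 1) / (ρ - 1) ≤ ρ / (ρ - 1) * N ^ (s - 5 / 91) := by
    rw [div_mul_eq_mul_div, div_le_div_iff_of_pos_right hρ2, pow_succ]
    nlinarith
  calc C * 2 ^ s * ((ρ ^ (J + 1) - 1) / (ρ - 1))
      ≤ C * 2 ^ s * (ρ / (ρ - 1) * N ^ (s - 5 / 91)) :=
        mul_le_mul_of_nonneg_left h10 (by positivity)
    _ = _ := by ring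

theorem markov {S : Finset Edg} {f : Finset Edg → ℝ} (hf : ∀ F, 0 ≤ f F) {L : ℝ} (hL : 0 < L) :
    Pr P S (fun F => L < f F) ≤ Ex P S f / L := by
  have h1 : Pr P S (fun F => L < f F) ≤ Ex P S (fun F => (1 / L) * f F) := by
    unfold Pr
    apply Ex_mono w_ok
    intro F _
    by_cases h : L < f F
    · rw [ind_of h, one_div, ← div_eq_inv_mul, le_div_iff₀ hL]
      linarith
    · rw [ind_not_of h]
      have := hf F
      positivity
  rw [Ex_mul_left] at h1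
  calc _ ≤ _ := h1
    _ = _ := by ring

/-- the bad event in a cell -/
def Bad (s N L : ℝ) (M : ℕ) (F : Finset Edg) : Prop := Big N M F ∨ L < Tm s N M F

theorem Sm_le_of_not {s N L : ℝ} {M : ℕ} {F : Finset Edg} (h : ¬ Bad s N L M F) :
    Sm s M F ≤ L := by
  unfold Bad at h
  rw [not_or, not_lt] at h
  obtain ⟨h1, h2⟩ := h
  refine le_trans (le_of_eq ?_) h2
  unfold Sm Tm
  apply Finset.sum_congr rfl
  intro v hv
  rw [min_eq_left]
  by_contra hlt
  rw [not_le] at hlt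
  exact h1 ⟨v, hv, cb M F v, hlt.le, fun u hu => (mem_cb.mp hu).2⟩

theorem Bad_mono {s N L : ℝ} (hs : 0 ≤ s) (hN : 0 ≤ N) {M : ℕ} {F G : Finset Edg} (h : F ⊆ G)
    (hF : Bad s N L M F) : Bad s N L M G := by
  rcases hF with h1 | h1
  · exact Or.inl (Big_mono h h1)
  · exact Or.inr (h1.trans_le (Tm_mono hs hN h))

theorem Bad_local (s N L : ℝ) (M : ℕ) (F : Finset Edg) :
    Bad s N L M F ↔ Bad s N L M (F ∩ boxE M) := by
  unfold Bad
  rw [← Tm_local, ← Big_local' (Finset.Subset.refl _)]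

theorem cell (hAr : ArS) {s : ℝ} (hs : 5 / 91 < s) : ∃ A : ℝ, 0 < A ∧ ∀ M : ℕ, 1 ≤ M →
    ∃ N : ℝ, 1 ≤ N ∧
      1 / 2 ≤ 1 - Pr P (boxE M) (Bad s N (A * (M : ℝ) ^ (2 + (91 * s - 5) / 48)) M) := by
  obtain ⟨C, hC, hmax⟩ := max_upper
  obtain ⟨C2, hC2, hmom⟩ := trunc_mom hAr hs
  obtain ⟨c0, C0, hc0, hC0, har⟩ := hAr
  have hd : 0 < s - 5 / 91 := by linarith
  have hs0 : 0 < s := by linarith
  set l : ℝ := max (2 * Real.sqrt C) (1 / c0) with hl
  have hl0 : 0 < l := lt_of_lt_of_le (by positivity) (le_max_right _ _)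
  have hl1 : C / l ^ 2 ≤ 1 / 4 := by
    rw [div_le_iff₀ (by positivity)]
    have h1 : (2 * Real.sqrt C) ^ 2 ≤ l ^ 2 := pow_le_pow_left₀ (by positivity) (le_max_left _ _) 2
    rw [mul_pow, Real.sq_sqrt hC.le] at h1
    linarith
  refine ⟨4 * (9 * C2 * (l * C0) ^ (s - 5 / 91)), by positivity, fun M hM => ?_⟩
  have hM1 : (1 : ℝ) ≤ M := by exact_mod_cast hM
  have hM0 : (0 : ℝ) < M := by linarith
  obtain ⟨ha1, ha2⟩ := har M hM
  have haM := ar_pos M
  have hpw : (M : ℝ) ^ 2 * (M : ℝ) ^ (-(5 / 48 : ℝ)) = (M : ℝ) ^ (91 / 48 : ℝ) := by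
    rw [← Real.rpow_natCast (M : ℝ) 2, ← Real.rpow_add hM0]
    norm_num
  have hup : (M : ℝ) ^ 2 * ar M ≤ C0 * (M : ℝ) ^ (91 / 48 : ℝ) := by
    rw [← hpw]
    nlinarith [mul_le_mul_of_nonneg_left ha2 (show (0 : ℝ) ≤ (M : ℝ) ^ 2 by positivity)]
  have hlo : c0 ≤ (M : ℝ) ^ 2 * ar M := by
    have h1 : c0 * (M : ℝ) ^ (91 / 48 : ℝ) ≤ (M : ℝ) ^ 2 * ar M := by
      rw [← hpw]
      nlinarith [mul_le_mul_of_nonneg_left ha1 (show (0 : ℝ) ≤ (M : ℝ) ^ 2 by positivity)]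
    have h2 : (1 : ℝ) ≤ (M : ℝ) ^ (91 / 48 : ℝ) := Real.one_le_rpow hM1 (by norm_num)
    nlinarith
  set N : ℝ := l * ((M : ℝ) ^ 2 * ar M) with hN
  have hN1 : 1 ≤ N := by
    rw [hN]
    calc (1 : ℝ) = 1 / c0 * c0 := by field_simp
      _ ≤ l * ((M : ℝ) ^ 2 * ar M) := mul_le_mul (le_max_right _ _) hlo hc0.le hl0.le
  refine ⟨N, hN1, ?_⟩
  have h1 := (hmax M hM l hl0).trans hl1
  rw [← hN] at h1
  set L : ℝ := 4 * (9 * C2 * (l * C0) ^ (s - 5 / 91)) * (M : ℝ) ^ (2 + (91 * s - 5) / 48) with hL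
  have hL0 : 0 < L := by positivity
  have hE : Ex P (boxE M) (Tm s N M) ≤ L / 4 := by
    have e0 : Ex P (boxE M) (Tm s N M) =
        ∑ v ∈ bx M, Ex P (boxE M) (fun F => (min ((cb M F v).card : ℝ) N) ^ s) := by
      unfold Tm
      rw [Ex_sum]
    rw [e0]
    have h2 : ∀ v ∈ bx M, Ex P (boxE M) (fun F => (min ((cb M F v).card : ℝ) N) ^ s) ≤
        C2 * N ^ (s - 5 / 91) := fun v hv => hmom M v hv _ N hN1
    refine (Finset.sum_le_sum h2).trans ?_
    rw [Finset.sum_const, nsmul_eq_mul, w_card_bx]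
    have h3 : (2 * (M : ℝ) + 1) ^ 2 ≤ 9 * (M : ℝ) ^ 2 := by nlinarith
    have h4 : N ≤ l * C0 * (M : ℝ) ^ (91 / 48 : ℝ) := by
      rw [hN, mul_assoc]
      exact mul_le_mul_of_nonneg_left hup hl0.le
    have h5 : N ^ (s - 5 / 91) ≤ (l * C0) ^ (s - 5 / 91) * (M : ℝ) ^ ((91 * s - 5) / 48) := by
      refine (Real.rpow_le_rpow (by linarith) h4 hd.le).trans (le_of_eq ?_)
      rw [Real.mul_rpow (by positivity) (by positivity), ← Real.rpow_mul hM0.le]
      congr 2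
      ring
    have h6 : (M : ℝ) ^ (2 + (91 * s - 5) / 48) = (M : ℝ) ^ 2 * (M : ℝ) ^ ((91 * s - 5) / 48) := by
      rw [Real.rpow_add hM0]
      congr 1
      exact_mod_cast Real.rpow_natCast (M : ℝ) 2
    calc (2 * (M : ℝ) + 1) ^ 2 * (C2 * N ^ (s - 5 / 91))
        ≤ 9 * (M : ℝ) ^ 2 * (C2 * ((l * C0) ^ (s - 5 / 91) * (M : ℝ) ^ ((91 * s - 5) / 48))) := by
          apply mul_le_mul h3 (mul_le_mul_of_nonneg_left h5 hC2.le) (by positivity) (by positivity)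
      _ = L / 4 := by
          rw [hL, h6]
          ring
  have h7 : Pr P (boxE M) (fun F => L < Tm s N M F) ≤ 1 / 4 := by
    refine (markov (fun F => ?_) hL0).trans ?_
    · unfold Tm
      exact Finset.sum_nonneg fun v _ => Real.rpow_nonneg (le_min (by positivity) (by linarith)) _
    · rw [div_le_iff₀ hL0]
      linarith
  have h8 : Pr P (boxE M) (Bad s N L M) ≤ 1 / 4 + 1 / 4 :=
    (Pr_or_le w_ok (boxE M) (Big N M) (fun F => L < Tm s N M F)).trans (add_le_add h1 h7)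
  linarith

/-- the lower bound of the lower tail -/
theorem mom_low (hAr : ArS) {s : ℝ} (hs : 5 / 91 < s) : ∃ c C : ℝ, 0 < c ∧ 0 < C ∧
    ∀ n : ℕ, 1 ≤ n → ∀ x : ℝ, 1 ≤ x → x ≤ c * (n : ℝ) ^ ((91 * s - 5) / 48) →
    Real.exp (-(C * x ^ (96 / (91 * s - 5)))) ≤ Pr P (boxE n)
      (fun F => Sm s n F ≤ (2 * (n : ℝ) + 1) ^ 2 * ((n : ℝ) ^ ((91 * s - 5) / 48) / x)) := by
  obtain ⟨A, hA, hcell⟩ := cell hAr hs
  obtain ⟨d, hd0, hd1, hconf⟩ := conf_gen
  have hs0 : 0 < s := by linarith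
  set θ : ℝ := (91 * s - 5) / 48 with hθ
  have hθ0 : 0 < θ := by
    rw [hθ]
    apply div_pos _ (by norm_num)
    linarith
  set D : ℝ := 9 * A * 3 ^ θ with hD
  have hD0 : 0 < D := by positivity
  -- `m = ⌊b n x^(-1/θ)⌋`
  set b : ℝ := min 1 (D⁻¹ ^ (1 / θ)) with hb
  have hb0 : 0 < b := lt_min one_pos (by positivity)
  have hbD : b ^ θ * D ≤ 1 := by
    have h1 : b ^ θ ≤ (D⁻¹ ^ (1 / θ)) ^ θ := Real.rpow_le_rpow hb0.le (min_le_right _ _) hθ0.le
    rw [← Real.rpow_mul (by positivity), one_div, inv_mul_cancel₀ hθ0.ne', Real.rpow_one] at h1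
    calc b ^ θ * D ≤ D⁻¹ * D := mul_le_mul_of_nonneg_right h1 hD0.le
      _ = 1 := inv_mul_cancel₀ hD0.ne'
  have hlog : 0 < -Real.log d := by
    have := Real.log_neg hd0 hd1
    linarith
  refine ⟨b ^ θ, -Real.log d * (16 / b ^ 2), by positivity, by positivity, fun n hn x hx hxn => ?_⟩
  have hn1 : (1 : ℝ) ≤ n := by exact_mod_cast hn
  have hn0 : (0 : ℝ) < n := by linarith
  have hx0 : 0 < x := by linarith
  set t : ℝ := x ^ (1 / θ) with ht
  have ht0 : 0 < t := by positivity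
  have ht1 : 1 ≤ t := Real.one_le_rpow hx (by positivity)
  have htθ : t ^ θ = x := by
    rw [ht, ← Real.rpow_mul hx0.le, one_div, inv_mul_cancel₀ hθ0.ne', Real.rpow_one]
  set y : ℝ := b * n / t with hy
  have hy1 : 1 ≤ y := by
    rw [hy, le_div_iff₀ ht0, one_mul]
    have h1 : t ≤ (b ^ θ * (n : ℝ) ^ θ) ^ (1 / θ) := Real.rpow_le_rpow hx0.le hxn (by positivity)
    rw [← Real.mul_rpow hb0.le hn0.le, ← Real.rpow_mul (by positivity), mul_one_div_cancel hθ0.ne',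
      Real.rpow_one] at h1
    exact h1
  have hy0 : 0 < y := by linarith
  set m : ℕ := ⌊y⌋₊ with hm
  have hm1 : 1 ≤ m := Nat.one_le_floor_iff y |>.mpr hy1
  have hm1' : (1 : ℝ) ≤ m := by exact_mod_cast hm1
  have hmy : (m : ℝ) ≤ y := Nat.floor_le hy0.le
  have hym : y ≤ 2 * m := by
    have := Nat.lt_floor_add_one y
    linarith
  have hyn : y ≤ n := by
    rw [hy, div_le_iff₀ ht0]
    have : b ≤ 1 := min_le_left _ _
    nlinarith
  have hmn : (m : ℝ) ≤ n := hmy.trans hyn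
  have hmn' : m ≤ n := by exact_mod_cast hmn
  set K : ℕ := (2 * n + 1 + 3 * m - 1) / (3 * m) with hK
  have hK1 : 2 * n + 1 ≤ 3 * m * K := by
    have h1 := Nat.div_add_mod (2 * n + 1 + 3 * m - 1) (3 * m)
    have h2 := Nat.mod_lt (2 * n + 1 + 3 * m - 1) (show 0 < 3 * m by omega)
    rw [← hK] at h1
    omega
  have hK2 : 3 * m * K ≤ 2 * n + 3 * m := by
    have h1 := Nat.div_mul_le_self (2 * n + 1 + 3 * m - 1) (3 * m)
    rw [← hK, mul_comm] at h1
    omega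
  have hK0 : 1 ≤ K := by
    rcases Nat.eq_zero_or_pos K with h | h
    · rw [h, mul_zero] at hK1
      omega
    · exact h
  have hKn : (K : ℝ) * m ≤ 2 * n := by
    have h1 : (3 * m * K : ℝ) ≤ 2 * n + 3 * m := by exact_mod_cast hK2
    nlinarith
  obtain ⟨N, hN1, hcm⟩ := hcell (3 * m) (by omega)
  set L : ℝ := A * ((3 * m : ℕ) : ℝ) ^ (2 + θ) with hL
  have h1 := hconf n m K hm1 hK0 hK1 hK2 (Bad s N L (3 * m))
    (fun F G h hF => Bad_mono hs0.le (by linarith) h hF) (fun F => Bad_local s N L (3 * m) F) hcm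
  have hsub : boxE n ⊆ boxE (n + 6 * m) := boxE_mono (by omega)
  have h2 : Pr P (boxE (n + 6 * m)) (fun F => Sm s n F ≤ K ^ 2 * L) =
      Pr P (boxE n) (fun F => Sm s n F ≤ K ^ 2 * L) :=
    Pr_local hsub (A := fun F => Sm s n F ≤ K ^ 2 * L) (fun F _ => by rw [← Sm_local])
  have h3 : d ^ (K ^ 2) ≤ Pr P (boxE n) (fun F => Sm s n F ≤ K ^ 2 * L) := by
    rw [← h2]
    refine h1.trans (Pr_mono w_ok ?_)
    rintro F - ⟨⟨hV, hH⟩, hq⟩
    refine (Sm_le hs0.le hm1 hK1 hV hH).trans ?_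
    refine (Finset.sum_le_sum fun q hq' => Sm_le_of_not (hq q hq')).trans ?_
    rw [Finset.sum_const, Finset.card_product, Finset.card_range, nsmul_eq_mul]
    push_cast
    rw [_root_.sq]
  have h4 : (K : ℝ) ^ 2 * L ≤ (2 * (n : ℝ) + 1) ^ 2 * ((n : ℝ) ^ θ / x) := by
    have hm0 : (0 : ℝ) < m := by linarith
    have e1 : L = A * (9 * 3 ^ θ) * ((m : ℝ) ^ 2 * (m : ℝ) ^ θ) := by
      rw [hL]
      push_cast
      rw [Real.mul_rpow (by norm_num) hm0.le, Real.rpow_add (by norm_num), Real.rpow_add hm0]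
      have e2 : (3 : ℝ) ^ (2 : ℝ) = 9 := by
        rw [show (2 : ℝ) = ((2 : ℕ) : ℝ) by norm_num, Real.rpow_natCast]
        norm_num
      have e3 : (m : ℝ) ^ (2 : ℝ) = (m : ℝ) ^ 2 := by
        rw [show (2 : ℝ) = ((2 : ℕ) : ℝ) by norm_num, Real.rpow_natCast]
      rw [e2, e3]
      ring
    have e4 : (m : ℝ) ^ θ ≤ b ^ θ * (n : ℝ) ^ θ / x := by
      have h5 : (m : ℝ) ^ θ ≤ y ^ θ := Real.rpow_le_rpow hm0.le hmy hθ0.le
      rw [hy, Real.div_rpow (by positivity) ht0.le, htθ, Real.mul_rpow hb0.le hn0.le] at h5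
      exact h5
    calc (K : ℝ) ^ 2 * L = ((K : ℝ) * m) ^ 2 * (D * (m : ℝ) ^ θ) := by
          rw [e1, hD]
          ring
      _ ≤ (2 * n) ^ 2 * (D * (b ^ θ * (n : ℝ) ^ θ / x)) := by
          apply mul_le_mul (pow_le_pow_left₀ (by positivity) hKn 2)
            (mul_le_mul_of_nonneg_left e4 hD0.le) (by positivity) (by positivity)
      _ = (2 * n) ^ 2 * ((b ^ θ * D) * ((n : ℝ) ^ θ / x)) := by ring
      _ ≤ (2 * (n : ℝ) + 1) ^ 2 * (1 * ((n : ℝ) ^ θ / x)) := by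
          apply mul_le_mul _ (mul_le_mul_of_nonneg_right hbD (by positivity)) (by positivity)
            (by positivity)
          apply pow_le_pow_left₀ (by positivity)
          linarith
      _ = _ := by rw [one_mul]
  have h5 : Real.exp (-(-Real.log d * (16 / b ^ 2) * x ^ (96 / (91 * s - 5)))) ≤ d ^ (K ^ 2) := by
    have e5 : x ^ (96 / (91 * s - 5)) = t ^ 2 := by
      rw [ht, ← Real.rpow_natCast (x ^ (1 / θ)) 2, ← Real.rpow_mul hx0.le]
      congr 1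
      rw [hθ]
      have : (91 * s - 5) ≠ 0 := by
        have : 0 < 91 * s - 5 := by linarith
        exact this.ne'
      push_cast
      field_simp
      norm_num
    have hm0 : (0 : ℝ) < m := by linarith
    have e6 : (K : ℝ) ≤ 4 * t / b := by
      rw [le_div_iff₀ hb0]
      have h6 : b * n ≤ 2 * m * t := by
        have : y * t = b * n := by
          rw [hy]
          field_simp
        nlinarith
      have h7 : (K : ℝ) * m * (b * n) ≤ 2 * n * (2 * m * t) := by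
        apply mul_le_mul hKn h6 (by positivity) (by positivity)
      have h8 : 0 < (m : ℝ) * n := by positivity
      have h9 : (K : ℝ) * b * (m * n) ≤ 4 * t * (m * n) := by nlinarith
      exact le_of_mul_le_mul_right h9 h8
    have e7 : ((K ^ 2 : ℕ) : ℝ) ≤ 16 / b ^ 2 * t ^ 2 := by
      push_cast
      have h8 : (K : ℝ) ^ 2 ≤ (4 * t / b) ^ 2 := pow_le_pow_left₀ (by positivity) e6 2
      calc (K : ℝ) ^ 2 ≤ (4 * t / b) ^ 2 := h8
        _ = _ := by ring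
    rw [e5]
    have h9 := exp_le_pow hd0 hd1 e7
    rwa [← mul_assoc] at h9
  refine h5.trans (h3.trans (Pr_mono w_ok ?_))
  intro F _ hF
  exact hF.trans h4

end Pool.Agent.X135.VT
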