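import Pool.Agent.X135.VT.Mom

/-!
The sums of the powers of the cluster sizes of a box: the upper bound of the lower tail; the largest
cluster.
-/

set_option autoImplicit false

namespace Pool.Agent.X135.VT
open Finset H974 Pool.Agent.H160R2.CV Pool.Agent.H160R2.CV.Quad H362P Pool.Agent.Y244.PC
  Pool.Agent.H389R2.CD

theorem cb_eq {n : ℕ} {F : Finset Edg} {v w : Vtx} (h : w ∈ cb n F v) : cb n F w = cb n F v := by
  have h1 := (mem_cb.mp h).2
  ext u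
  rw [mem_cb, mem_cb]
  constructor
  · rintro ⟨h2, h3⟩
    exact ⟨h2, h1.trans h3⟩
  · rintro ⟨h2, h3⟩
    exact ⟨h2, h1.symm.trans h3⟩

theorem many_sum {s V : ℝ} (hs : 0 ≤ s) (hV : 0 < V) {n k : ℕ} {F : Finset Edg}
    (h : Many n V k F) : (k : ℝ) * V ^ (1 + s) ≤ Sm s n F := by
  classical
  obtain ⟨R, hR, hk, hdis, hbig⟩ := h
  have h1 : ∀ v ∈ R, V ≤ ((cb n F v).card : ℝ) := by
    intro v hv
    obtain ⟨T, hT, hr⟩ := hbig v hv
    refine hT.trans ?_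
    exact_mod_cast Finset.card_le_card (fun u hu => mem_cb.mpr ⟨w_reach_bx (hR hv) (hr u hu),
      hr u hu⟩)
  have h2 : (↑R : Set Vtx).PairwiseDisjoint (fun v => cb n F v) := by
    intro u hu v hv huv
    rw [Function.onFun, Finset.disjoint_left]
    intro w hw1 hw2
    exact hdis u hu v hv huv ((mem_cb.mp hw1).2.trans (mem_cb.mp hw2).2.symm)
  have h3 : R.biUnion (fun v => cb n F v) ⊆ bx n := by
    intro u hu
    rw [Finset.mem_biUnion] at hu
    obtain ⟨v, -, hv⟩ := hu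
    exact (mem_cb.mp hv).1
  calc (k : ℝ) * V ^ (1 + s) = ∑ v ∈ R, V ^ (1 + s) := by
        rw [Finset.sum_const, nsmul_eq_mul, hk]
    _ ≤ ∑ v ∈ R, ∑ w ∈ cb n F v, ((cb n F w).card : ℝ) ^ s := by
        apply Finset.sum_le_sum
        intro v hv
        have e : ∑ w ∈ cb n F v, ((cb n F w).card : ℝ) ^ s =
            ((cb n F v).card : ℝ) ^ (1 + s) := by
          have h4 := h1 v hv
          rw [Finset.sum_congr rfl (g := fun _ => ((cb n F v).card : ℝ) ^ s)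
            (fun w hw => by rw [cb_eq hw]), Finset.sum_const, nsmul_eq_mul,
            Real.rpow_add (by linarith), Real.rpow_one]
        rw [e]
        exact Real.rpow_le_rpow hV.le (h1 v hv) (by linarith)
    _ = ∑ w ∈ R.biUnion (fun v => cb n F v), ((cb n F w).card : ℝ) ^ s :=
        (Finset.sum_biUnion h2).symm
    _ ≤ Sm s n F := Finset.sum_le_sum_of_subset_of_nonneg h3 (fun w _ _ => by positivity)

theorem Sm_ge {s : ℝ} (hs : 0 ≤ s) (n : ℕ) (F : Finset Edg) : (2 * (n : ℝ) + 1) ^ 2 ≤ Sm s n F := by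
  rw [← w_card_bx, ← nsmul_one, ← Finset.sum_const]
  unfold Sm
  apply Finset.sum_le_sum
  intro v hv
  apply Real.one_le_rpow _ hs
  exact_mod_cast Finset.card_pos.mpr ⟨v, self_mem hv⟩

theorem mom_up (hAr : ArS) {s : ℝ} (hs : 5 / 91 < s) : ∃ c C : ℝ, 0 < c ∧ 0 < C ∧
    ∀ n : ℕ, 1 ≤ n → ∀ x : ℝ, 1 ≤ x → Pr P (boxE n)
      (fun F => Sm s n F ≤ (2 * (n : ℝ) + 1) ^ 2 * ((n : ℝ) ^ ((91 * s - 5) / 48) / x)) ≤
      C * Real.exp (-(c * x ^ (96 / (91 * s - 5)))) := by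
  obtain ⟨c1, C1, hc1, hC1, hlow⟩ := many_lower hAr
  have hs0 : 0 < s := by linarith
  set δ : ℝ := s - 5 / 91 with hδ
  have hδ0 : 0 < δ := by linarith
  have h91 : 91 * s - 5 = 91 * δ := by rw [hδ]; ring
  set G : ℝ := max 1 ((9 / c1) ^ (1 / δ)) with hG
  have hG1 : 1 ≤ G := le_max_left _ _
  have hG0 : 0 < G := by linarith
  have hGδ : 9 / c1 ≤ G ^ δ := by
    have h1 : ((9 / c1) ^ (1 / δ)) ^ δ ≤ G ^ δ :=
      Real.rpow_le_rpow (by positivity) (le_max_right _ _) hδ0.le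
    rwa [← Real.rpow_mul (by positivity), one_div, inv_mul_cancel₀ hδ0.ne', Real.rpow_one] at h1
  set c : ℝ := c1 * G ^ (-(96 / 91 : ℝ)) with hc
  have hc0 : 0 < c := by positivity
  set E : ℝ := 96 / (91 * s - 5) with hE
  have hE0 : 0 < E := by
    rw [hE, h91]
    positivity
  refine ⟨c, max C1 (Real.exp (c * (G ^ δ) ^ E)), hc0, lt_of_lt_of_le hC1 (le_max_left _ _),
    fun n hn x hx => ?_⟩
  have hn1 : (1 : ℝ) ≤ n := by exact_mod_cast hn
  have hn0 : (0 : ℝ) < n := by linarith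
  have hx0 : 0 < x := by linarith
  rcases lt_or_ge x (G ^ δ) with hxG | hxG
  · -- trivial
    refine (Pr_le_one w_ok _ _).trans ?_
    calc (1 : ℝ) = Real.exp (c * (G ^ δ) ^ E) * Real.exp (-(c * (G ^ δ) ^ E)) := by
          rw [← Real.exp_add, add_neg_cancel, Real.exp_zero]
      _ ≤ max C1 (Real.exp (c * (G ^ δ) ^ E)) * Real.exp (-(c * x ^ E)) := by
          apply mul_le_mul (le_max_right _ _) _ (Real.exp_pos _).le (by positivity)
          apply Real.exp_le_exp.mpr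
          have : x ^ E ≤ (G ^ δ) ^ E := Real.rpow_le_rpow hx0.le hxG.le hE0.le
          nlinarith
  rcases lt_or_ge ((n : ℝ) ^ ((91 * s - 5) / 48)) x with hxn | hxn
  · -- impossible event
    have h1 : Pr P (boxE n)
        (fun F => Sm s n F ≤ (2 * (n : ℝ) + 1) ^ 2 * ((n : ℝ) ^ ((91 * s - 5) / 48) / x)) ≤ 0 := by
      rw [← Ex_const P (boxE n) 0]
      unfold Pr
      apply Ex_mono w_ok
      intro F _
      rw [ind_not_of]
      intro hF
      have h2 := Sm_ge hs0.le n F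
      have h3 : (n : ℝ) ^ ((91 * s - 5) / 48) / x < 1 := by rwa [div_lt_one hx0]
      have h4 : (0 : ℝ) < (2 * (n : ℝ) + 1) ^ 2 := by positivity
      nlinarith
    refine h1.trans (by positivity)
  -- main case
  set y : ℝ := (n : ℝ) ^ (91 / 48 : ℝ) * x ^ (-(1 / δ)) with hy
  have hxd : 0 < x ^ (1 / δ) := by positivity
  have hy0 : 0 < y := by positivity
  have hy1 : 1 ≤ y := by
    rw [hy, Real.rpow_neg hx0.le, ← div_eq_mul_inv, le_div_iff₀ hxd, one_mul]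
    have h1 : x ^ (1 / δ) ≤ ((n : ℝ) ^ ((91 * s - 5) / 48)) ^ (1 / δ) :=
      Real.rpow_le_rpow hx0.le hxn (by positivity)
    rw [← Real.rpow_mul hn0.le] at h1
    have e : (91 * s - 5) / 48 * (1 / δ) = 91 / 48 := by
      rw [h91]
      field_simp
    rwa [e] at h1
  set V : ℝ := G * y with hV
  have hV1 : 1 ≤ V := by
    calc (1 : ℝ) = 1 * 1 := by ring
      _ ≤ G * y := mul_le_mul hG1 hy1 zero_le_one hG0.le
  have hV0 : 0 < V := by linarith
  have hVn : V ≤ (n : ℝ) ^ (91 / 48 : ℝ) := by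
    have h1 : G ≤ x ^ (1 / δ) := by
      have h2 : (G ^ δ) ^ (1 / δ) ≤ x ^ (1 / δ) := Real.rpow_le_rpow (by positivity) hxG
        (by positivity)
      rwa [← Real.rpow_mul hG0.le, mul_one_div_cancel hδ0.ne', Real.rpow_one] at h2
    rw [hV, hy, Real.rpow_neg hx0.le]
    calc G * ((n : ℝ) ^ (91 / 48 : ℝ) * (x ^ (1 / δ))⁻¹)
        ≤ x ^ (1 / δ) * ((n : ℝ) ^ (91 / 48 : ℝ) * (x ^ (1 / δ))⁻¹) :=
          mul_le_mul_of_nonneg_right h1 (by positivity)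
      _ = (n : ℝ) ^ (91 / 48 : ℝ) := by
          field_simp
  set Λ : ℝ := (n : ℝ) ^ 2 * V ^ (-(96 / 91 : ℝ)) with hΛ
  have hΛ0 : 0 < Λ := by positivity
  have hn2 : (n : ℝ) ^ 2 * ((n : ℝ) ^ (91 / 48 : ℝ)) ^ (-(96 / 91 : ℝ)) = 1 := by
    rw [← Real.rpow_mul hn0.le, ← Real.rpow_natCast (n : ℝ) 2, ← Real.rpow_add hn0]
    norm_num
  have hΛe : Λ = G ^ (-(96 / 91 : ℝ)) * x ^ E := by
    rw [hΛ, hV, hy, Real.mul_rpow hG0.le (by positivity), Real.mul_rpow (by positivity)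
      (by positivity)]
    have e1 : (x ^ (-(1 / δ))) ^ (-(96 / 91 : ℝ)) = x ^ E := by
      rw [← Real.rpow_mul hx0.le]
      congr 1
      rw [hE, h91]
      field_simp
    rw [e1]
    calc (n : ℝ) ^ 2 * (G ^ (-(96 / 91 : ℝ)) * (((n : ℝ) ^ (91 / 48 : ℝ)) ^ (-(96 / 91 : ℝ)) *
        x ^ E)) = ((n : ℝ) ^ 2 * ((n : ℝ) ^ (91 / 48 : ℝ)) ^ (-(96 / 91 : ℝ))) *
          (G ^ (-(96 / 91 : ℝ)) * x ^ E) := by ring
      _ = _ := by rw [hn2, one_mul]
  set k : ℕ := ⌊c1 * Λ⌋₊ + 1 with hk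
  have hk1 : (k : ℝ) ≤ c1 * Λ + 1 := by
    rw [hk]
    push_cast
    linarith [Nat.floor_le (show 0 ≤ c1 * Λ by positivity)]
  have hk2 : c1 * Λ < k := by
    rw [hk]
    push_cast
    exact Nat.lt_floor_add_one _
  have h1 := hlow n hn V hV1 hVn k hk1
  have h2 : Pr P (boxE n)
      (fun F => Sm s n F ≤ (2 * (n : ℝ) + 1) ^ 2 * ((n : ℝ) ^ ((91 * s - 5) / 48) / x)) ≤
      Pr P (boxE n) (fun F => ¬ Many n V k F) := by
    apply Pr_mono w_ok
    intro F _ hF hM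
    have h3 := many_sum hs0.le hV0 hM
    have h4 : c1 * Λ * V ^ (1 + s) < k * V ^ (1 + s) :=
      mul_lt_mul_of_pos_right hk2 (by positivity)
    have h5 : c1 * Λ * V ^ (1 + s) = c1 * (n : ℝ) ^ 2 * V ^ δ := by
      rw [hΛ]
      have : V ^ (-(96 / 91 : ℝ)) * V ^ (1 + s) = V ^ δ := by
        rw [← Real.rpow_add hV0]
        congr 1
        rw [hδ]
        ring
      calc c1 * ((n : ℝ) ^ 2 * V ^ (-(96 / 91 : ℝ))) * V ^ (1 + s) =
          c1 * (n : ℝ) ^ 2 * (V ^ (-(96 / 91 : ℝ)) * V ^ (1 + s)) := by ring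
        _ = _ := by rw [this]
    have h6 : V ^ δ = G ^ δ * ((n : ℝ) ^ ((91 * s - 5) / 48) / x) := by
      rw [hV, hy, Real.mul_rpow hG0.le (by positivity), Real.mul_rpow (by positivity)
        (by positivity), ← Real.rpow_mul hn0.le, ← Real.rpow_mul hx0.le]
      have e1 : (91 / 48 : ℝ) * δ = (91 * s - 5) / 48 := by rw [h91]; ring
      have e2 : -(1 / δ) * δ = -1 := by field_simp
      rw [e1, e2, Real.rpow_neg_one]
      ring
    have h7 : (2 * (n : ℝ) + 1) ^ 2 ≤ 9 * (n : ℝ) ^ 2 := by nlinarith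
    have h8 : 0 < (n : ℝ) ^ ((91 * s - 5) / 48) / x := by positivity
    have h9 : (2 * (n : ℝ) + 1) ^ 2 * ((n : ℝ) ^ ((91 * s - 5) / 48) / x) ≤
        c1 * (n : ℝ) ^ 2 * V ^ δ := by
      rw [h6]
      have h10 : 9 ≤ c1 * G ^ δ := by
        rw [div_le_iff₀ hc1] at hGδ
        linarith
      calc (2 * (n : ℝ) + 1) ^ 2 * ((n : ℝ) ^ ((91 * s - 5) / 48) / x)
          ≤ 9 * (n : ℝ) ^ 2 * ((n : ℝ) ^ ((91 * s - 5) / 48) / x) :=
            mul_le_mul_of_nonneg_right h7 h8.le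
        _ ≤ c1 * G ^ δ * (n : ℝ) ^ 2 * ((n : ℝ) ^ ((91 * s - 5) / 48) / x) := by
            apply mul_le_mul_of_nonneg_right _ h8.le
            exact mul_le_mul_of_nonneg_right h10 (by positivity)
        _ = _ := by ring
    linarith
  refine h2.trans (h1.trans ?_)
  rw [← hΛ, hΛe, ← mul_assoc]
  exact mul_le_mul_of_nonneg_right (le_max_left _ _) (Real.exp_pos _).le

/-- the lower tail of the largest cluster, upper bound -/
theorem max_up (hAr : ArS) : ∃ c C : ℝ, 0 < c ∧ 0 < C ∧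
    ∀ n : ℕ, 1 ≤ n → ∀ x : ℝ, 1 ≤ x → Pr P (boxE n)
      (fun F => ¬ Big ((⌊(n : ℝ) ^ (91 / 48 : ℝ) / x⌋₊ : ℝ) + 1) n F) ≤
      C * Real.exp (-(c * x ^ (96 / 91 : ℝ))) := by
  obtain ⟨c1, C1, hc1, hC1, hlow⟩ := many_lower hAr
  set c : ℝ := c1 * 2 ^ (-(96 / 91 : ℝ)) with hc
  have hc0 : 0 < c := by positivity
  refine ⟨c, max C1 (Real.exp (c * 2 ^ (96 / 91 : ℝ))), hc0,
    lt_of_lt_of_le hC1 (le_max_left _ _), fun n hn x hx => ?_⟩
  have hn1 : (1 : ℝ) ≤ n := by exact_mod_cast hn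
  have hn0 : (0 : ℝ) < n := by linarith
  have hx0 : 0 < x := by linarith
  rcases lt_or_ge x 2 with hx2 | hx2
  · refine (Pr_le_one w_ok _ _).trans ?_
    calc (1 : ℝ) = Real.exp (c * 2 ^ (96 / 91 : ℝ)) * Real.exp (-(c * 2 ^ (96 / 91 : ℝ))) := by
          rw [← Real.exp_add, add_neg_cancel, Real.exp_zero]
      _ ≤ max C1 (Real.exp (c * 2 ^ (96 / 91 : ℝ))) * Real.exp (-(c * x ^ (96 / 91 : ℝ))) := by
          apply mul_le_mul (le_max_right _ _) _ (Real.exp_pos _).le (by positivity)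
          apply Real.exp_le_exp.mpr
          have : x ^ (96 / 91 : ℝ) ≤ 2 ^ (96 / 91 : ℝ) :=
            Real.rpow_le_rpow hx0.le hx2.le (by norm_num)
          nlinarith
  set y : ℝ := (n : ℝ) ^ (91 / 48 : ℝ) / x with hy
  have hy0 : 0 < y := by positivity
  rcases lt_or_ge y 1 with hy1 | hy1
  · have h1 : Pr P (boxE n) (fun F => ¬ Big ((⌊y⌋₊ : ℝ) + 1) n F) ≤ 0 := by
      rw [← Ex_const P (boxE n) 0]
      unfold Pr
      apply Ex_mono w_ok
      intro F _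
      rw [ind_not_of]
      intro hF
      apply hF
      rw [Nat.floor_eq_zero.mpr hy1]
      push_cast
      rw [zero_add]
      exact big_one n F
    exact h1.trans (by positivity)
  have h2y : 2 * y ≤ (n : ℝ) ^ (91 / 48 : ℝ) := by
    rw [hy, ← mul_div_assoc, div_le_iff₀ hx0]
    have : (0 : ℝ) < (n : ℝ) ^ (91 / 48 : ℝ) := by positivity
    nlinarith
  have h1 := hlow n hn (2 * y) (by linarith) h2y 1 (by
    push_cast
    have : 0 ≤ c1 * ((n : ℝ) ^ 2 * (2 * y) ^ (-(96 / 91 : ℝ))) := by positivity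
    linarith)
  have h2 : Pr P (boxE n) (fun F => ¬ Big ((⌊y⌋₊ : ℝ) + 1) n F) ≤
      Pr P (boxE n) (fun F => ¬ Many n (2 * y) 1 F) := by
    apply Pr_mono w_ok
    rintro F - hF ⟨R, hR, hR1, -, hbig⟩
    obtain ⟨v, hv⟩ := Finset.card_eq_one.mp hR1
    have hvR : v ∈ R := by rw [hv]; exact Finset.mem_singleton_self v
    obtain ⟨T, hT, hr⟩ := hbig v hvR
    apply hF
    refine ⟨v, hR hvR, T, ?_, hr⟩
    have := Nat.floor_le hy0.le
    linarith
  refine h2.trans (h1.trans ?_)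
  have hn2 : (n : ℝ) ^ 2 * ((n : ℝ) ^ (91 / 48 : ℝ)) ^ (-(96 / 91 : ℝ)) = 1 := by
    rw [← Real.rpow_mul hn0.le, ← Real.rpow_natCast (n : ℝ) 2, ← Real.rpow_add hn0]
    norm_num
  have e : (n : ℝ) ^ 2 * (2 * y) ^ (-(96 / 91 : ℝ)) =
      2 ^ (-(96 / 91 : ℝ)) * x ^ (96 / 91 : ℝ) := by
    rw [Real.mul_rpow (by norm_num) hy0.le, hy, Real.div_rpow (by positivity) hx0.le,
      Real.rpow_neg hx0.le, div_inv_eq_mul]
    calc (n : ℝ) ^ 2 * (2 ^ (-(96 / 91 : ℝ)) * (((n : ℝ) ^ (91 / 48 : ℝ)) ^ (-(96 / 91 : ℝ)) *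
        x ^ (96 / 91 : ℝ))) = ((n : ℝ) ^ 2 * ((n : ℝ) ^ (91 / 48 : ℝ)) ^ (-(96 / 91 : ℝ))) *
          (2 ^ (-(96 / 91 : ℝ)) * x ^ (96 / 91 : ℝ)) := by ring
      _ = _ := by rw [hn2, one_mul]
  rw [e, ← mul_assoc]
  exact mul_le_mul_of_nonneg_right (le_max_left _ _) (Real.exp_pos _).le

end Pool.Agent.X135.VT
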