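import Pool.Agent.X135.VT.Up

/-!
The number of vertices of a box connected to its boundary: the lower bound of the lower tail.
-/

set_option autoImplicit false

namespace Pool.Agent.X135.VT
open Finset H974 Pool.Agent.H160R2.CV Pool.Agent.H160R2.CV.Quad H362P Pool.Agent.Y244.PC
  Pool.Agent.H389R2.CD

open Classical in
/-- the number of vertices of the box connected to `W` inside the box -/
noncomputable def NW (n : ℕ) (W : Finset Vtx) (F : Finset Edg) : ℕ :=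
  ((bx n).filter (fun v => ∃ w ∈ W, Reach (↑F ∩ ↑(boxE n)) v w)).card

theorem NW_local (n : ℕ) (W : Finset Vtx) (F : Finset Edg) : NW n W F = NW n W (F ∩ boxE n) := by
  unfold NW
  rw [coe_inter_eq (Finset.Subset.refl (boxE n))]

/-- no open crossing of the strips along the boundary -/
def NoC (n w : ℕ) (F : Finset Edg) : Prop :=
  (¬ LRc (-(n : ℤ)) (-(n : ℤ) + w) (-(n : ℤ)) n F ∧ ¬ LRc ((n : ℤ) - w) n (-(n : ℤ)) n F) ∧
  (¬ TBc (-(n : ℤ)) n (-(n : ℤ)) (-(n : ℤ) + w) F ∧ ¬ TBc (-(n : ℤ)) n ((n : ℤ) - w) n F)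

theorem noC_det {n w : ℕ} (hw : 1 ≤ w) {F : Finset Edg} (h : NoC n w F) {v u : Vtx}
    (hv : nv v + w ≤ n) (hu : nv u = n) : ¬ Reach (↑F ∩ ↑(boxE n)) v u := by
  intro hr
  have hbE : ∀ {x y : ℤ} {b : Bool}, ((x, y, b) : Edg) ∈ (↑F ∩ ↑(boxE n) : Set Edg) →
      -(n : ℤ) ≤ x ∧ x ≤ n ∧ -(n : ℤ) ≤ y ∧ y ≤ n ∧ (b = true → x < n) ∧ (b = false → y < n) := by
    rintro x y b ⟨-, h⟩
    rw [Finset.mem_coe] at h
    unfold boxE at h
    cases b
    · rw [mem_RE_false] at h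
      refine ⟨h.1, h.2.1, h.2.2.1, h.2.2.2.le, fun h' => by simp at h', fun _ => h.2.2.2⟩
    · rw [mem_RE_true] at h
      refine ⟨h.1, h.2.1.le, h.2.2.1, h.2.2.2, fun _ => h.2.1, fun h' => by simp at h'⟩
  have hLR : ∀ (a b : ℤ) (s t : Vtx), a < b → Reach (↑F ∩ ↑(boxE n)) s t → s.1 ≤ a → b ≤ t.1 →
      LRc a b (-(n : ℤ)) n F := by
    intro a b s t hab hst hs ht
    obtain ⟨y1, y2, k1, k2, k3, -⟩ := sub_LR (a := a) (b := b) (c := -(n : ℤ)) (d := n) hab
      (by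
        intro x y hxy _ _
        have := hbE hxy
        exact ⟨this.2.2.1, this.2.2.2.1⟩)
      (by
        intro x y hxy _ _
        have := hbE hxy
        exact ⟨this.2.2.1, this.2.2.2.2.2 rfl⟩) hst hs ht
    refine ⟨y1, y2, k1, k2, k3.mono ?_⟩
    rintro e ⟨⟨h7, -⟩, h8⟩
    exact ⟨h7, h8⟩
  have hTB : ∀ (a b : ℤ) (s t : Vtx), a < b → Reach (↑F ∩ ↑(boxE n)) s t → s.2 ≤ a → b ≤ t.2 →
      TBc (-(n : ℤ)) n a b F := by
    intro a b s t hab hst hs ht
    obtain ⟨y1, y2, k1, k2, k3, -⟩ := sub_TB (a := -(n : ℤ)) (b := n) (c := a) (d := b) hab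
      (by
        intro x y hxy _ _
        have := hbE hxy
        exact ⟨this.1, this.2.1⟩)
      (by
        intro x y hxy _ _
        have := hbE hxy
        exact ⟨this.1, this.2.2.2.2.1 rfl⟩) hst hs ht
    refine ⟨y1, y2, k1, k2, k3.mono ?_⟩
    rintro e ⟨⟨h7, -⟩, h8⟩
    exact ⟨h7, h8⟩
  obtain ⟨⟨h1, h2⟩, h3, h4⟩ := h
  unfold nv at hv hu
  have hcase : u.1 = -(n : ℤ) ∨ u.1 = n ∨ u.2 = -(n : ℤ) ∨ u.2 = n := by omega
  rcases hcase with e | e | e | e
  · exact h1 (hLR _ _ u v (by omega) hr.symm e.le (by omega))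
  · exact h2 (hLR _ _ v u (by omega) hr (by omega) e.ge)
  · exact h3 (hTB _ _ u v (by omega) hr.symm e.le (by omega))
  · exact h4 (hTB _ _ v u (by omega) hr (by omega) e.ge)

/-- the number of vertices near the boundary with an arm as long as the distance to the boundary -/
noncomputable def Bl (n w : ℕ) (F : Finset Edg) : ℝ :=
  ∑ v ∈ bx n, (if n < nv v + w then ind (Far v (n - nv v) F) else 0)

theorem Bl_mono {n w : ℕ} {F G : Finset Edg} (h : F ⊆ G) : Bl n w F ≤ Bl n w G := by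
  unfold Bl
  apply Finset.sum_le_sum
  intro v _
  split_ifs
  · exact ind_mono (Far.mono_F h)
  · exact le_rfl

theorem Bl_nonneg (n w : ℕ) (F : Finset Edg) : 0 ≤ Bl n w F := by
  unfold Bl
  apply Finset.sum_nonneg
  intro v _
  split_ifs
  · exact ind_nonneg _
  · exact le_rfl

theorem NW_le {n w : ℕ} (hw : 1 ≤ w) {F : Finset Edg} (h : NoC n w F) {W : Finset Vtx}
    (hW : ∀ u ∈ W, nv u = n) : (NW n W F : ℝ) ≤ Bl n w F := by
  classical
  unfold NW Bl
  rw [← Finset.sum_filter]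
  rw [Finset.card_eq_sum_ones]
  push_cast
  have h1 : ∀ v ∈ (bx n).filter (fun v => ∃ w ∈ W, Reach (↑F ∩ ↑(boxE n)) v w),
      v ∈ (bx n).filter (fun v => n < nv v + w) ∧ ind (Far v (n - nv v) F) = 1 := by
    intro v hv
    rw [Finset.mem_filter] at hv
    obtain ⟨hv, u, hu, hr⟩ := hv
    constructor
    · rw [Finset.mem_filter]
      refine ⟨hv, ?_⟩
      by_contra hlt
      exact noC_det hw h (by omega) (hW u hu) hr
    · apply ind_of
      refine ⟨u, ?_, hr.mono Set.inter_subset_left⟩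
      have := hW u hu
      unfold nv at this ⊢
      simp only [Prod.fst_sub, Prod.snd_sub]
      omega
  calc ∑ v ∈ (bx n).filter (fun v => ∃ w ∈ W, Reach (↑F ∩ ↑(boxE n)) v w), (1 : ℝ)
      = ∑ v ∈ (bx n).filter (fun v => ∃ w ∈ W, Reach (↑F ∩ ↑(boxE n)) v w),
        ind (Far v (n - nv v) F) := Finset.sum_congr rfl (fun v hv => (h1 v hv).2.symm)
    _ ≤ _ := by
        apply Finset.sum_le_sum_of_subset_of_nonneg
        · intro v hv
          exact (h1 v hv).1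
        · intro v _ _
          exact ind_nonneg _

/-- the sum of the one-arm probabilities -/
theorem ar_sum1 (hAr : ArS) : ∃ C : ℝ, 0 < C ∧ ∀ w : ℕ, 1 ≤ w →
    ∑ d ∈ range w, ar d ≤ C * (w : ℝ) ^ (43 / 48 : ℝ) := by
  obtain ⟨c0, C0, hc0, hC0, har⟩ := hAr
  refine ⟨1 + 2 * C0, by positivity, fun w hw => ?_⟩
  have key : ∀ w : ℕ, ∑ d ∈ range (w + 1), ar d ≤
      1 + 2 * C0 * (w : ℝ) ^ (43 / 48 : ℝ) := by
    intro w
    induction w with
    | zero =>
      rw [zero_add, Finset.sum_range_one]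
      have := ar_le_one 0
      have : (0 : ℝ) ≤ 2 * C0 * ((0 : ℕ) : ℝ) ^ (43 / 48 : ℝ) := by positivity
      linarith
    | succ w ih =>
      rw [Finset.sum_range_succ]
      have h1 := (har (w + 1) (by omega)).2
      set W : ℝ := ((w + 1 : ℕ) : ℝ) with hW
      have hW0 : 0 < W := by positivity
      have hW1 : 1 ≤ W := by
        rw [hW]
        push_cast
        linarith [(Nat.cast_nonneg w : (0 : ℝ) ≤ w)]
      have hw : (w : ℝ) = W * (1 + -(1 / W)) := by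
        rw [hW]
        push_cast
        field_simp
        ring
      have h2 : (1 + -(1 / W)) ^ (43 / 48 : ℝ) ≤ 1 + 43 / 48 * (-(1 / W)) := by
        apply _root_.rpow_one_add_le_one_add_mul_self
        · have : 1 / W ≤ 1 := by
            rw [div_le_one hW0]
            exact hW1
          linarith
        · norm_num
        · norm_num
      have h3 : (w : ℝ) ^ (43 / 48 : ℝ) ≤ W ^ (43 / 48 : ℝ) * (1 + 43 / 48 * (-(1 / W))) := by
        rw [hw, Real.mul_rpow hW0.le]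
        · exact mul_le_mul_of_nonneg_left h2 (by positivity)
        · have : 1 / W ≤ 1 := by
            rw [div_le_one hW0]
            exact hW1
          linarith
      have h4 : W ^ (43 / 48 : ℝ) * (1 / W) = W ^ (-(5 / 48 : ℝ)) := by
        rw [one_div, ← Real.rpow_neg_one, ← Real.rpow_add hW0]
        norm_num
      have h5 : W ^ (43 / 48 : ℝ) * (1 + 43 / 48 * (-(1 / W))) =
          W ^ (43 / 48 : ℝ) - 43 / 48 * W ^ (-(5 / 48 : ℝ)) := by
        rw [← h4]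
        ring
      rw [h5] at h3
      have h6 : (0 : ℝ) < W ^ (-(5 / 48 : ℝ)) := by positivity
      nlinarith [mul_le_mul_of_nonneg_left h3 hC0.le, mul_pos hC0 h6]
  obtain ⟨v, rfl⟩ : ∃ v, w = v + 1 := ⟨w - 1, by omega⟩
  refine (key v).trans ?_
  have h1 : (1 : ℝ) ≤ ((v + 1 : ℕ) : ℝ) ^ (43 / 48 : ℝ) := by
    apply Real.one_le_rpow _ (by norm_num)
    push_cast
    linarith [(Nat.cast_nonneg v : (0 : ℝ) ≤ v)]
  have h2 : (v : ℝ) ^ (43 / 48 : ℝ) ≤ ((v + 1 : ℕ) : ℝ) ^ (43 / 48 : ℝ) := by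
    apply Real.rpow_le_rpow (Nat.cast_nonneg v) _ (by norm_num)
    push_cast
    linarith
  nlinarith [mul_le_mul_of_nonneg_left h2 (show (0 : ℝ) ≤ 2 * C0 by positivity)]

theorem Bl_mean (hAr : ArS) : ∃ C : ℝ, 0 < C ∧ ∀ (n w : ℕ) (S : Finset Edg), 1 ≤ n → 1 ≤ w →
    w ≤ n → Ex P S (Bl n w) ≤ C * (n * (w : ℝ) ^ (43 / 48 : ℝ)) := by
  obtain ⟨C, hC, hsum⟩ := ar_sum1 hAr
  refine ⟨16 * C, by positivity, fun n w S hn hw hwn => ?_⟩
  have e0 : Ex P S (Bl n w) =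
      ∑ v ∈ bx n, Ex P S (fun F => if n < nv v + w then ind (Far v (n - nv v) F) else 0) := by
    unfold Bl
    rw [Ex_sum]
  rw [e0]
  set f : ℕ → ℝ := fun k => if n < k + w then ar (n - k) else 0 with hf
  have hf0 : ∀ k, 0 ≤ f k := by
    intro k
    rw [hf]
    simp only
    split_ifs
    · exact (ar_pos _).le
    · exact le_rfl
  have h1 : ∀ v ∈ bx n, Ex P S (fun F => if n < nv v + w then ind (Far v (n - nv v) F) else 0) ≤
      f (nv v) := by
    intro v _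
    rw [hf]
    simp only
    split_ifs with h
    · exact far_le S v (n - nv v)
    · rw [Ex_const]
  refine (Finset.sum_le_sum h1).trans ((sum_bx n f hf0).trans ?_)
  have hn1 : (1 : ℝ) ≤ n := by exact_mod_cast hn
  have h2 : ∑ k ∈ range (n + 1), ((k : ℝ) + 1) * f k ≤ (2 * n) * ∑ k ∈ range (n + 1), f k := by
    rw [Finset.mul_sum]
    apply Finset.sum_le_sum
    intro k hk
    apply mul_le_mul_of_nonneg_right _ (hf0 k)
    have : (k : ℝ) ≤ n := by
      exact_mod_cast Nat.le_of_lt_succ (Finset.mem_range.mp hk)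
    linarith
  have h3 : ∑ k ∈ range (n + 1), f k ≤ ∑ d ∈ range w, ar d := by
    rw [← Finset.sum_range_reflect]
    have h4 : ∀ d ∈ range (n + 1), f (n + 1 - 1 - d) = if d < w then ar d else 0 := by
      intro d hd
      have hd' := Nat.le_of_lt_succ (Finset.mem_range.mp hd)
      rw [hf]
      simp only [Nat.add_sub_cancel]
      by_cases h : d < w
      · rw [if_pos h, if_pos (by omega)]
        congr 1
        omega
      · rw [if_neg h, if_neg (by omega)]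
    rw [Finset.sum_congr rfl h4, ← Finset.sum_filter]
    apply Finset.sum_le_sum_of_subset_of_nonneg
    · intro d hd
      rw [Finset.mem_filter] at hd
      exact Finset.mem_range.mpr hd.2
    · intro d _ _
      exact (ar_pos d).le
  have h5 := hsum w hw
  have h6 : ∑ k ∈ range (n + 1), f k ≤ C * (w : ℝ) ^ (43 / 48 : ℝ) := h3.trans h5
  calc 8 * ∑ k ∈ range (n + 1), ((k : ℝ) + 1) * f k
      ≤ 8 * ((2 * n) * ∑ k ∈ range (n + 1), f k) := mul_le_mul_of_nonneg_left h2 (by norm_num)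
    _ ≤ 8 * ((2 * n) * (C * (w : ℝ) ^ (43 / 48 : ℝ))) := by
        apply mul_le_mul_of_nonneg_left _ (by norm_num)
        exact mul_le_mul_of_nonneg_left h6 (by positivity)
    _ = _ := by ring

/-- few vertices connected to the boundary -/
theorem wlow (hAr : ArS) : ∃ d A : ℝ, 0 < d ∧ d < 1 ∧ 0 < A ∧ ∀ n m K : ℕ, 1 ≤ m → 3 * m ≤ n →
    1 ≤ K → 2 * n + 1 ≤ 6 * m * K → ∀ W : Finset Vtx, (∀ u ∈ W, nv u = n) →
    d ^ K ≤ Pr P (boxE n) (fun F => (NW n W F : ℝ) ≤ A * (n * (m : ℝ) ^ (43 / 48 : ℝ))) := by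
  obtain ⟨C, hC, hmean⟩ := Bl_mean hAr
  refine ⟨(1 / 2) ^ 753, 2 * C * 3 ^ (43 / 48 : ℝ), by positivity,
    pow_lt_one₀ (by norm_num) (by norm_num) (by norm_num), by positivity, ?_⟩
  intro n m K hm hmn hK hKn W hW
  have hm' : (1 : ℤ) ≤ m := by exact_mod_cast hm
  have hmn' : 3 * (m : ℤ) ≤ n := by exact_mod_cast hmn
  have hn : 1 ≤ n := by omega
  obtain ⟨q0, hq0⟩ : ∃ q0 : ℝ, q0 = (1 / 2) ^ (141 * K + 47) := ⟨_, rfl⟩
  have hq00 : 0 ≤ q0 := by rw [hq0]; positivity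
  have hstrip : q0 ≤ 1 - hh (1 / 2) (3 * (m : ℤ)) (2 * n) := by
    rw [hq0]
    apply no_cross (m := m) (by omega) K (by omega) (by omega)
    have : (2 * (n : ℤ) + 1) ≤ 6 * m * K := by exact_mod_cast hKn
    linarith
  set S := boxE n with hS
  have hRE : ∀ {a b c d : ℤ}, -(n : ℤ) ≤ a → b ≤ n → -(n : ℤ) ≤ c → d ≤ n →
      RE a b c d ⊆ S := by
    intro a b c d h1 h2 h3 h4
    rw [hS]
    unfold boxE
    exact RE_subset h1 h2 h3 h4
  have hLR : ∀ a b : ℤ, -(n : ℤ) ≤ a → b ≤ n → b - a = 3 * m →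
      q0 ≤ Pr P S (fun F => ¬ LRc a b (-(n : ℤ)) n F) := by
    intro a b h1 h2 h3
    have h4 : Pr P S (LRc a b (-(n : ℤ)) n) = hh (1 / 2) (b - a) ((n : ℤ) - -(n : ℤ)) :=
      pr_LRc (1 / 2) (LRE_subset_RE.trans (hRE h1 h2 le_rfl le_rfl))
    rw [Pr_not, h4, h3, show (n : ℤ) - -(n : ℤ) = 2 * n by ring]
    exact hstrip
  have hTB : ∀ a b : ℤ, -(n : ℤ) ≤ a → b ≤ n → b - a = 3 * m →
      q0 ≤ Pr P S (fun F => ¬ TBc (-(n : ℤ)) n a b F) := by
    intro a b h1 h2 h3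
    have h4 : Pr P S (TBc (-(n : ℤ)) n a b) = hh (1 / 2) (b - a) ((n : ℤ) - -(n : ℤ)) :=
      pr_TBc (1 / 2) (TBE_subset_RE.trans (hRE le_rfl le_rfl h1 h2))
    rw [Pr_not, h4, h3, show (n : ℤ) - -(n : ℤ) = 2 * n by ring]
    exact hstrip
  have hand : ∀ {A B : Finset Edg → Prop}, DecrE S A → DecrE S B →
      DecrE S (fun F => A F ∧ B F) := by
    intro A B hA hB F G hFG hG h h'
    apply h
    constructor
    · by_contra h4
      exact hA F G hFG hG h4 h'.1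
    · by_contra h4
      exact hB F G hFG hG h4 h'.2
  have d1 : ∀ a b c d : ℤ, DecrE S (fun F => ¬ LRc a b c d F) :=
    fun a b c d => decr_not (LRc_incr _ _ _ _ _)
  have d2 : ∀ a b c d : ℤ, DecrE S (fun F => ¬ TBc a b c d F) :=
    fun a b c d => decr_not (TBc_incr _ _ _ _ _)
  have hprod : ∀ {A B : Finset Edg → Prop} {p q : ℝ}, DecrE S A → DecrE S B → 0 ≤ p → 0 ≤ q →
      p ≤ Pr P S A → q ≤ Pr P S B → p * q ≤ Pr P S (fun F => A F ∧ B F) := by
    intro A B p q hA hB hp hq h1 h2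
    exact (mul_le_mul h1 h2 hq (hp.trans h1)).trans (harris_dec2 w_ok hA hB)
  set w : ℕ := 3 * m with hw
  have hwz : (w : ℤ) = 3 * m := by rw [hw]; push_cast; ring
  have g1 := hprod (d1 (-(n : ℤ)) (-(n : ℤ) + w) (-(n : ℤ)) n)
    (d1 ((n : ℤ) - w) n (-(n : ℤ)) n) hq00 hq00
    (hLR _ _ le_rfl (by omega) (by omega)) (hLR _ _ (by omega) le_rfl (by omega))
  have g2 := hprod (d2 (-(n : ℤ)) n (-(n : ℤ)) (-(n : ℤ) + w))
    (d2 (-(n : ℤ)) n ((n : ℤ) - w) n) hq00 hq00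
    (hTB _ _ le_rfl (by omega) (by omega)) (hTB _ _ (by omega) le_rfl (by omega))
  have i1 := hand (d1 (-(n : ℤ)) (-(n : ℤ) + w) (-(n : ℤ)) n)
    (d1 ((n : ℤ) - w) n (-(n : ℤ)) n)
  have i2 := hand (d2 (-(n : ℤ)) n (-(n : ℤ)) (-(n : ℤ) + w))
    (d2 (-(n : ℤ)) n ((n : ℤ) - w) n)
  have g3 : q0 * q0 * (q0 * q0) ≤ Pr P S (NoC n w) :=
    hprod i1 i2 (by positivity) (by positivity) g1 g2
  have i3 : DecrE S (NoC n w) := hand i1 i2
  set L : ℝ := 2 * (C * (n * (w : ℝ) ^ (43 / 48 : ℝ))) with hL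
  have hn0 : (0 : ℝ) < n := by exact_mod_cast hn
  have hw0 : (0 : ℝ) < w := by
    rw [hw]
    exact_mod_cast (by omega : 0 < 3 * m)
  have hL0 : 0 < L := by positivity
  have i4 : DecrE S (fun F => Bl n w F ≤ L) := by
    intro F G hFG _ h h'
    exact h ((Bl_mono hFG).trans h')
  have g4 : (1 / 2 : ℝ) ≤ Pr P S (fun F => Bl n w F ≤ L) := by
    have h1 := markov (S := S) (f := Bl n w) (fun F => Bl_nonneg n w F) hL0
    have h2 := hmean n w S hn (by omega) (by omega)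
    have h3 : Ex P S (Bl n w) / L ≤ 1 / 2 := by
      rw [div_le_iff₀ hL0]
      linarith
    have h4 : Pr P S (fun F => Bl n w F ≤ L) = 1 - Pr P S (fun F => L < Bl n w F) := by
      rw [← Pr_not]
      apply Pr_congr
      intro F _
      rw [not_lt]
    rw [h4]
    linarith
  have g5 := hprod i3 i4 (by positivity) (by norm_num) g3 g4
  have hfin : Pr P S (fun F => NoC n w F ∧ Bl n w F ≤ L) ≤
      Pr P S (fun F => (NW n W F : ℝ) ≤ 2 * C * 3 ^ (43 / 48 : ℝ) *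
        (n * (m : ℝ) ^ (43 / 48 : ℝ))) := by
    apply Pr_mono w_ok
    rintro F - ⟨h1, h2⟩
    refine (NW_le (by omega) h1 hW).trans (h2.trans (le_of_eq ?_))
    rw [hL, hw]
    push_cast
    rw [Real.mul_rpow (by norm_num) (Nat.cast_nonneg m)]
    ring
  refine le_trans ?_ (g5.trans hfin)
  rw [hq0, ← pow_add, ← pow_add, ← pow_succ, ← pow_mul]
  apply pow_le_pow_of_le_one (by norm_num) (by norm_num)
  omega

/-- the lower tail of the number of vertices connected to the boundary, lower bound -/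
theorem wired_low (hAr : ArS) : ∃ c C : ℝ, 0 < c ∧ 0 < C ∧ ∀ n : ℕ, 1 ≤ n →
    ∀ W : Finset Vtx, (∀ u ∈ W, nv u = n) → ∀ x : ℝ, 1 ≤ x → x ≤ c * (n : ℝ) ^ (43 / 48 : ℝ) →
    Real.exp (-(C * x ^ (48 / 43 : ℝ))) ≤
      Pr P (boxE n) (fun F => (NW n W F : ℝ) ≤ (n : ℝ) ^ (91 / 48 : ℝ) / x) := by
  obtain ⟨d, A, hd0, hd1, hA, hlow⟩ := wlow hAr
  set b : ℝ := min (1 / 3) (A⁻¹ ^ (48 / 43 : ℝ)) with hb
  have hb0 : 0 < b := lt_min (by norm_num) (by positivity)
  have hbA : b ^ (43 / 48 : ℝ) * A ≤ 1 := by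
    have h1 : b ^ (43 / 48 : ℝ) ≤ (A⁻¹ ^ (48 / 43 : ℝ)) ^ (43 / 48 : ℝ) :=
      Real.rpow_le_rpow hb0.le (min_le_right _ _) (by norm_num)
    rw [← Real.rpow_mul (by positivity)] at h1
    norm_num at h1
    calc b ^ (43 / 48 : ℝ) * A ≤ A⁻¹ * A := mul_le_mul_of_nonneg_right h1 hA.le
      _ = 1 := inv_mul_cancel₀ hA.ne'
  have hlog : 0 < -Real.log d := by
    have := Real.log_neg hd0 hd1
    linarith
  refine ⟨b ^ (43 / 48 : ℝ), -Real.log d * (4 / b), by positivity, by positivity,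
    fun n hn W hW x hx hxn => ?_⟩
  have hn1 : (1 : ℝ) ≤ n := by exact_mod_cast hn
  have hn0 : (0 : ℝ) < n := by linarith
  have hx0 : 0 < x := by linarith
  set t : ℝ := x ^ (48 / 43 : ℝ) with ht
  have ht0 : 0 < t := by positivity
  have ht1 : 1 ≤ t := Real.one_le_rpow hx (by norm_num)
  have htθ : t ^ (43 / 48 : ℝ) = x := by
    rw [ht, ← Real.rpow_mul hx0.le]
    norm_num
  set y : ℝ := b * n / t with hy
  have hy1 : 1 ≤ y := by
    rw [hy, le_div_iff₀ ht0, one_mul]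
    have h1 : t ≤ (b ^ (43 / 48 : ℝ) * (n : ℝ) ^ (43 / 48 : ℝ)) ^ (48 / 43 : ℝ) :=
      Real.rpow_le_rpow hx0.le hxn (by norm_num)
    rw [← Real.mul_rpow hb0.le hn0.le, ← Real.rpow_mul (by positivity)] at h1
    norm_num at h1
    exact h1
  have hy0 : 0 < y := by linarith
  set m : ℕ := ⌊y⌋₊ with hm
  have hm1 : 1 ≤ m := Nat.one_le_floor_iff y |>.mpr hy1
  have hm1' : (1 : ℝ) ≤ m := by exact_mod_cast hm1
  have hm0 : (0 : ℝ) < m := by linarith
  have hmy : (m : ℝ) ≤ y := Nat.floor_le hy0.le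
  have hym : y ≤ 2 * m := by
    have := Nat.lt_floor_add_one y
    linarith
  have hyn : 3 * y ≤ n := by
    rw [hy, ← mul_div_assoc, div_le_iff₀ ht0]
    have : b ≤ 1 / 3 := min_le_left _ _
    nlinarith
  have hmn : 3 * m ≤ n := by
    have : (3 : ℝ) * m ≤ n := by linarith
    exact_mod_cast this
  set K : ℕ := (2 * n + 1 + 6 * m - 1) / (6 * m) with hK
  have hK1 : 2 * n + 1 ≤ 6 * m * K := by
    have h1 := Nat.div_add_mod (2 * n + 1 + 6 * m - 1) (6 * m)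
    have h2 := Nat.mod_lt (2 * n + 1 + 6 * m - 1) (show 0 < 6 * m by omega)
    rw [← hK] at h1
    omega
  have hK2 : 6 * m * K ≤ 2 * n + 6 * m := by
    have h1 := Nat.div_mul_le_self (2 * n + 1 + 6 * m - 1) (6 * m)
    rw [← hK, mul_comm] at h1
    omega
  have hK0 : 1 ≤ K := by
    rcases Nat.eq_zero_or_pos K with h | h
    · rw [h, mul_zero] at hK1
      omega
    · exact h
  have hKn : (K : ℝ) * m ≤ 2 * n := by
    have h1 : (6 * m * K : ℝ) ≤ 2 * n + 6 * m := by exact_mod_cast hK2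
    have h2 : (3 * m : ℝ) ≤ n := by exact_mod_cast hmn
    nlinarith
  have h1 := hlow n m K hm1 hmn hK0 hK1 W hW
  have h2 : A * (n * (m : ℝ) ^ (43 / 48 : ℝ)) ≤ (n : ℝ) ^ (91 / 48 : ℝ) / x := by
    have e4 : (m : ℝ) ^ (43 / 48 : ℝ) ≤ b ^ (43 / 48 : ℝ) * (n : ℝ) ^ (43 / 48 : ℝ) / x := by
      have h5 : (m : ℝ) ^ (43 / 48 : ℝ) ≤ y ^ (43 / 48 : ℝ) :=
        Real.rpow_le_rpow hm0.le hmy (by norm_num)
      rw [hy, Real.div_rpow (by positivity) ht0.le, htθ, Real.mul_rpow hb0.le hn0.le] at h5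
      exact h5
    have e5 : (n : ℝ) ^ (91 / 48 : ℝ) = n * (n : ℝ) ^ (43 / 48 : ℝ) := by
      nth_rewrite 2 [← Real.rpow_one (n : ℝ)]
      rw [← Real.rpow_add hn0]
      norm_num
    calc A * (n * (m : ℝ) ^ (43 / 48 : ℝ))
        ≤ A * (n * (b ^ (43 / 48 : ℝ) * (n : ℝ) ^ (43 / 48 : ℝ) / x)) := by
          apply mul_le_mul_of_nonneg_left _ hA.le
          exact mul_le_mul_of_nonneg_left e4 hn0.le
      _ = (b ^ (43 / 48 : ℝ) * A) * (n * (n : ℝ) ^ (43 / 48 : ℝ) / x) := by ring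
      _ ≤ 1 * (n * (n : ℝ) ^ (43 / 48 : ℝ) / x) :=
          mul_le_mul_of_nonneg_right hbA (by positivity)
      _ = _ := by rw [one_mul, e5]
  have e6 : (K : ℝ) ≤ 4 / b * t := by
    rw [div_mul_eq_mul_div, le_div_iff₀ hb0]
    have h6 : b * n ≤ 2 * m * t := by
      have : y * t = b * n := by
        rw [hy]
        field_simp
      nlinarith
    have h7 : (K : ℝ) * m * (b * n) ≤ 2 * n * (2 * m * t) := by
      apply mul_le_mul hKn h6 (by positivity) (by positivity)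
    have h8 : 0 < (m : ℝ) * n := by positivity
    have h9 : (K : ℝ) * b * (m * n) ≤ 4 * t * (m * n) := by nlinarith
    exact le_of_mul_le_mul_right h9 h8
  have h9 := exp_le_pow hd0 hd1 e6
  rw [← mul_assoc] at h9
  refine h9.trans (h1.trans (Pr_mono w_ok ?_))
  intro F _ hF
  exact hF.trans h2

end Pool.Agent.X135.VT
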