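import Pool.Agent.X135.VT.WLow

/-!
The number of vertices of a box connected to its boundary: the upper bound of the lower tail.
-/

set_option autoImplicit false

namespace Pool.Agent.X135.VT
open Finset H974 Pool.Agent.H160R2.CV Pool.Agent.H160R2.CV.Quad H362P Pool.Agent.Y244.PC
  Pool.Agent.H389R2.CD

/-- the half-box next to the bottom side -/
noncomputable def Rb (n r : ℕ) (z : ℤ) : Finset Edg :=
  RE (z - 3 * r) (z + 3 * r) (-(n : ℤ)) (-(n : ℤ) + 5 * r)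

/-- at least `N` vertices near `(z, -n + 2 r)` are connected to the bottom side -/
def Bt (n r : ℕ) (z : ℤ) (N : ℝ) (F : Finset Edg) : Prop :=
  ∃ T : Finset Vtx, N ≤ (T.card : ℝ) ∧ ∀ u ∈ T, nv (u - (z, -(n : ℤ) + 2 * r)) ≤ r ∧
    ∃ t : ℤ, (z - 3 * r ≤ t ∧ t ≤ z + 3 * r) ∧ Reach (↑F ∩ ↑(Rb n r z)) u (t, -(n : ℤ))

theorem Bt_local (n r : ℕ) (z : ℤ) (N : ℝ) (F : Finset Edg) :
    Bt n r z N F ↔ Bt n r z N (F ∩ Rb n r z) := by
  unfold Bt
  rw [coe_inter_eq (Finset.Subset.refl (Rb n r z))]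

theorem bt_det {n r : ℕ} {z : ℤ} {a : ℝ} {F : Finset Edg} (hr : 1 ≤ r)
    (hct : CtAt (z, -(n : ℤ) + 2 * r) a r F)
    (hL : TBc (z - 3 * r) (z - 2 * r) (-(n : ℤ)) (-(n : ℤ) + 5 * r) F)
    (hR : TBc (z + 2 * r) (z + 3 * r) (-(n : ℤ)) (-(n : ℤ) + 5 * r) F)
    (hT : LRc (z - 3 * r) (z + 3 * r) (-(n : ℤ) + 4 * r) (-(n : ℤ) + 5 * r) F) :
    Bt n r z (a * ((r : ℝ) ^ 2 * ar r)) F := by
  obtain ⟨T, hTc, hTu⟩ := CtAt_set hct
  refine ⟨T, hTc, fun u hu => ⟨(hTu u hu).1, ?_⟩⟩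
  obtain ⟨hu1, v, hv, hreach⟩ := hTu u hu
  have hr' : (1 : ℤ) ≤ r := by exact_mod_cast hr
  obtain ⟨x1, x2, k1, k2, k3⟩ := hL
  obtain ⟨y1, y2, l1, l2, l3⟩ := hR
  obtain ⟨h1, h2, m1, m2, m3⟩ := hT
  have k4 : Reach (↑F ∩ ↑(RE (z - 3 * r) (z - 2 * r) (-(n : ℤ)) (-(n : ℤ) + 5 * r)))
      (x1, -(n : ℤ)) (x2, -(n : ℤ) + 5 * r) :=
    k3.mono (Set.inter_subset_inter_right _ (by exact_mod_cast TBE_subset_RE))
  have l4 : Reach (↑F ∩ ↑(RE (z + 2 * r) (z + 3 * r) (-(n : ℤ)) (-(n : ℤ) + 5 * r)))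
      (y1, -(n : ℤ)) (y2, -(n : ℤ) + 5 * r) :=
    l3.mono (Set.inter_subset_inter_right _ (by exact_mod_cast TBE_subset_RE))
  have m4 : Reach (↑F ∩ ↑(RE (z - 3 * r) (z + 3 * r) (-(n : ℤ) + 4 * r) (-(n : ℤ) + 5 * r)))
      (z - 3 * r, h1) (z + 3 * r, h2) :=
    m3.mono (Set.inter_subset_inter_right _ (by exact_mod_cast LRE_subset_RE))
  have hu2 : (z - r ≤ u.1 ∧ u.1 ≤ z + r) ∧ (-(n : ℤ) + r ≤ u.2 ∧ u.2 ≤ -(n : ℤ) + 3 * r) := by
    unfold nv at hu1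
    simp only [Prod.fst_sub, Prod.snd_sub] at hu1
    omega
  have hv' : v.1 ≤ z - 3 * r ∨ z + 3 * r ≤ v.1 ∨ v.2 ≤ -(n : ℤ) ∨ -(n : ℤ) + 5 * r ≤ v.2 := by
    unfold nv at hv
    simp only [Prod.fst_sub, Prod.snd_sub] at hv
    omega
  obtain ⟨w, w1, w2, w3⟩ := first_exit (a := z - 3 * r) (b := z + 3 * r) (c := -(n : ℤ))
    (d := -(n : ℤ) + 5 * r) (by unfold inR; omega) hreach hv'
  unfold inR at w1
  unfold Rb
  rcases w2 with hw | hw | hw | hw
  · have e1 := cross_meet (A := z - 3 * r) (B := z + 3 * r) (C := -(n : ℤ))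
      (D := -(n : ℤ) + 5 * r) (a := z - 3 * r) (b := z - 2 * r) (c := -(n : ℤ))
      (d := -(n : ℤ) + 5 * r) le_rfl (by omega) (by omega) le_rfl (by omega) le_rfl w3.symm hw.le
      (by omega) k4 le_rfl le_rfl
    exact ⟨x1, by omega, w3.trans e1⟩
  · have e1 := cross_meet (A := z - 3 * r) (B := z + 3 * r) (C := -(n : ℤ))
      (D := -(n : ℤ) + 5 * r) (a := z + 2 * r) (b := z + 3 * r) (c := -(n : ℤ))
      (d := -(n : ℤ) + 5 * r) (by omega) (by omega) le_rfl le_rfl (by omega) le_rfl w3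
      (by omega) hw.ge l4 le_rfl le_rfl
    exact ⟨y1, by omega, e1⟩
  · refine ⟨w.1, by omega, ?_⟩
    have e : w = (w.1, -(n : ℤ)) := Prod.ext rfl hw
    rw [e] at w3
    exact w3
  · have e1 := cross_meet (A := z - 3 * r) (B := z + 3 * r) (C := -(n : ℤ))
      (D := -(n : ℤ) + 5 * r) (a := z - 3 * r) (b := z + 3 * r) (c := -(n : ℤ) + 4 * r)
      (d := -(n : ℤ) + 5 * r) le_rfl (by omega) le_rfl (by omega) (by omega) le_rfl m4 le_rfl
      le_rfl w3 (by omega) hw.ge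
    have e2 := cross_meet (A := z - 3 * r) (B := z + 3 * r) (C := -(n : ℤ))
      (D := -(n : ℤ) + 5 * r) (a := z - 3 * r) (b := z - 2 * r) (c := -(n : ℤ) + 4 * r)
      (d := -(n : ℤ) + 5 * r) le_rfl (by omega) (by omega) (by omega) (by omega) le_rfl m4 le_rfl
      (show z - 2 * (r : ℤ) ≤ z + 3 * r by omega) k4 (show -(n : ℤ) ≤ -(n : ℤ) + 4 * r by omega)
      le_rfl
    exact ⟨x1, by omega, e1.symm.trans e2⟩

theorem bt_prob : ∃ a c : ℝ, 0 < a ∧ 0 < c ∧ ∀ (n r : ℕ) (z : ℤ), 2 ≤ r → ∀ S : Finset Edg,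
    Rb n r z ⊆ S → c ≤ Pr P S (Bt n r z (a * ((r : ℝ) ^ 2 * ar r))) := by
  obtain ⟨a, c, ha, hc, hcount⟩ := count_lower
  refine ⟨a, c * (1 / 2) ^ (141 * 2 + 47) * (1 / 2) ^ (141 * 2 + 47) * (1 / 2) ^ (141 * 2 + 47), ha,
    by positivity, fun n r z hr S hS => ?_⟩
  have hr' : (2 : ℤ) ≤ r := by exact_mod_cast hr
  set U : Finset Edg := bo (z, -(n : ℤ) + 2 * r) (5 * r) with hU
  have hRU : Rb n r z ⊆ U := by
    rw [hU]
    unfold Rb bo
    apply RE_subset <;> push_cast <;> omega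
  have h1 : Pr P S (Bt n r z (a * ((r : ℝ) ^ 2 * ar r))) =
      Pr P U (Bt n r z (a * ((r : ℝ) ^ 2 * ar r))) := by
    rw [Pr_local hS (A := Bt n r z (a * ((r : ℝ) ^ 2 * ar r))) (fun F _ => Bt_local _ _ _ _ F),
      Pr_local hRU (A := Bt n r z (a * ((r : ℝ) ^ 2 * ar r))) (fun F _ => Bt_local _ _ _ _ F)]
  rw [h1]
  have p0 : c ≤ Pr P U (CtAt (z, -(n : ℤ) + 2 * r) a r) :=
    pr_CtAt (fun S hS => hcount r (by omega) S hS) (Finset.Subset.refl _)
  have hm : (0 : ℤ) < (r : ℤ) / 2 := by omega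
  have hsub : ∀ {a b c d : ℤ}, z - 3 * r ≤ a → b ≤ z + 3 * r → -(n : ℤ) ≤ c →
      d ≤ -(n : ℤ) + 5 * r → RE a b c d ⊆ U := by
    intro a b c d h1 h2 h3 h4
    refine Finset.Subset.trans ?_ hRU
    unfold Rb
    exact RE_subset h1 h2 h3 h4
  have hV : ∀ a b : ℤ, z - 3 * r ≤ a → b ≤ z + 3 * r → b - a = r →
      (1 / 2 : ℝ) ^ (141 * 2 + 47) ≤ Pr P U (TBc a b (-(n : ℤ)) (-(n : ℤ) + 5 * r)) := by
    intro a b h1 h2 h3
    have h4 : Pr P U (TBc a b (-(n : ℤ)) (-(n : ℤ) + 5 * r)) =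
        hh (1 / 2) (-(n : ℤ) + 5 * r - -(n : ℤ)) (b - a) :=
      pr_TBc (1 / 2) (TBE_subset_RE.trans (hsub h1 h2 le_rfl le_rfl))
    rw [h4, h3, show -(n : ℤ) + 5 * (r : ℤ) - -(n : ℤ) = 5 * r by ring]
    exact hh_long hm 2 (by omega) (by push_cast; omega) (by omega)
  have p1 := hV (z - 3 * r) (z - 2 * r) le_rfl (by omega) (by ring)
  have p2 := hV (z + 2 * r) (z + 3 * r) (by omega) le_rfl (by ring)
  have p3 : (1 / 2 : ℝ) ^ (141 * 2 + 47) ≤
      Pr P U (LRc (z - 3 * r) (z + 3 * r) (-(n : ℤ) + 4 * r) (-(n : ℤ) + 5 * r)) := by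
    have h4 : Pr P U (LRc (z - 3 * r) (z + 3 * r) (-(n : ℤ) + 4 * r) (-(n : ℤ) + 5 * r)) =
        hh (1 / 2) (z + 3 * r - (z - 3 * r)) (-(n : ℤ) + 5 * r - (-(n : ℤ) + 4 * r)) :=
      pr_LRc (1 / 2) (LRE_subset_RE.trans (hsub le_rfl le_rfl (by omega) le_rfl))
    rw [h4, show z + 3 * (r : ℤ) - (z - 3 * r) = 6 * r by ring,
      show -(n : ℤ) + 5 * (r : ℤ) - (-(n : ℤ) + 4 * r) = r by ring]
    exact hh_long hm 2 (by omega) (by push_cast; omega) (by omega)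
  have hand : ∀ {A B : Finset Edg → Prop}, IncrE U A → IncrE U B →
      IncrE U (fun F => A F ∧ B F) :=
    fun hA hB F G hFG hG h => ⟨hA F G hFG hG h.1, hB F G hFG hG h.2⟩
  have hprod : ∀ {A B : Finset Edg → Prop} {p q : ℝ}, IncrE U A → IncrE U B → 0 ≤ p → 0 ≤ q →
      p ≤ Pr P U A → q ≤ Pr P U B → p * q ≤ Pr P U (fun F => A F ∧ B F) := by
    intro A B p q hA hB hp hq h1 h2
    exact (mul_le_mul h1 h2 hq (hp.trans h1)).trans (Pr_harris w_ok hA hB)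
  have j0 := CtAt_incr U (z, -(n : ℤ) + 2 * r) a r
  have j1 := TBc_incr U (z - 3 * r) (z - 2 * r) (-(n : ℤ)) (-(n : ℤ) + 5 * r)
  have j2 := TBc_incr U (z + 2 * r) (z + 3 * r) (-(n : ℤ)) (-(n : ℤ) + 5 * r)
  have j3 := LRc_incr U (z - 3 * r) (z + 3 * r) (-(n : ℤ) + 4 * r) (-(n : ℤ) + 5 * r)
  have g1 := hprod j0 j1 hc.le (by positivity) p0 p1
  have g2 := hprod (hand j0 j1) j2 (by positivity) (by positivity) g1 p2
  have g3 := hprod (hand (hand j0 j1) j2) j3 (by positivity) (by positivity) g2 p3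
  refine g3.trans (Pr_mono w_ok ?_)
  rintro F - ⟨⟨⟨h1, h2⟩, h3⟩, h4⟩
  exact bt_det (by omega) h1 h2 h3 h4

/-- positions of the half-boxes -/
def zz (a : ℤ) (r i : ℕ) : ℤ := a + 3 * r + i * (6 * r + 1)

theorem zz_sep {a : ℤ} {r i j : ℕ} (h : i < j) : zz a r i + 6 * r + 1 ≤ zz a r j := by
  unfold zz
  have h1 : ((i : ℤ) + 1) * (6 * r + 1) ≤ j * (6 * r + 1) :=
    mul_le_mul_of_nonneg_right (by exact_mod_cast h) (by positivity)
  linarith

theorem zz_lo (a : ℤ) (r i : ℕ) : a ≤ zz a r i - 3 * r := by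
  unfold zz
  have h1 : (0 : ℤ) ≤ i * (6 * r + 1) := by positivity
  linarith

theorem zz_hi {a b : ℤ} {r i k : ℕ} (hk : ((6 * r + 1) * k : ℤ) ≤ b - a + 1) (hi : i < k) :
    zz a r i + 3 * r ≤ b := by
  unfold zz
  have h1 : ((i : ℤ) + 1) * (6 * r + 1) ≤ k * (6 * r + 1) :=
    mul_le_mul_of_nonneg_right (by exact_mod_cast hi) (by positivity)
  linarith

theorem Rb_disj {n r : ℕ} {z z' : ℤ} (h : z + 6 * r + 1 ≤ z') : Disjoint (Rb n r z) (Rb n r z') := by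
  rw [Finset.disjoint_left]
  rintro ⟨x, y, b⟩ h1 h2
  unfold Rb at h1 h2
  cases b
  · rw [mem_RE_false] at h1 h2
    omega
  · rw [mem_RE_true] at h1 h2
    omega

/-- many half-boxes with many vertices connected to the bottom side -/
theorem NW_ge {n r k : ℕ} {a b : ℤ} {N : ℝ} (ha : -(n : ℤ) ≤ a) (hb : b ≤ n)
    (h5 : 5 * r ≤ 2 * n) (hk : ((6 * r + 1) * k : ℤ) ≤ b - a + 1) {W : Finset Vtx}
    (hW : ∀ t : ℤ, a ≤ t → t ≤ b → ((t, -(n : ℤ)) : Vtx) ∈ W) {F : Finset Edg} :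
    (∑ i ∈ range k, ind (Bt n r (zz a r i) N F)) * N ≤ (NW n W F : ℝ) := by
  classical
  rw [w_sum_ind]
  set J := (range k).filter (fun i => Bt n r (zz a r i) N F) with hJ
  have h1 : ∀ i ∈ J, ∃ T : Finset Vtx, N ≤ (T.card : ℝ) ∧ ∀ u ∈ T,
      nv (u - (zz a r i, -(n : ℤ) + 2 * r)) ≤ r ∧ ∃ t : ℤ, (zz a r i - 3 * r ≤ t ∧
      t ≤ zz a r i + 3 * r) ∧ Reach (↑F ∩ ↑(Rb n r (zz a r i))) u (t, -(n : ℤ)) := by
    intro i hi
    exact (Finset.mem_filter.mp hi).2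
  choose! T hT1 hT2 using h1
  have hik : ∀ i ∈ J, i < k := fun i hi => Finset.mem_range.mp (Finset.mem_filter.mp hi).1
  have hdis : (↑J : Set ℕ).PairwiseDisjoint T := by
    intro i hi j hj hij
    rw [Function.onFun, Finset.disjoint_left]
    intro u hu1 hu2
    have e1 := (hT2 i hi u hu1).1
    have e2 := (hT2 j hj u hu2).1
    unfold nv at e1 e2
    simp only [Prod.fst_sub, Prod.snd_sub] at e1 e2
    rcases Nat.lt_or_gt_of_ne hij with h | h
    · have := zz_sep (a := a) (r := r) h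
      omega
    · have := zz_sep (a := a) (r := r) h
      omega
  have hsub : J.biUnion T ⊆ (bx n).filter (fun v => ∃ w ∈ W, Reach (↑F ∩ ↑(boxE n)) v w) := by
    intro u hu
    rw [Finset.mem_biUnion] at hu
    obtain ⟨i, hi, hu⟩ := hu
    obtain ⟨e1, t, ht, hr⟩ := hT2 i hi u hu
    have g1 := zz_lo a r i
    have g2 := zz_hi hk (hik i hi)
    have h5' : 5 * (r : ℤ) ≤ 2 * n := by exact_mod_cast h5
    rw [Finset.mem_filter, w_mem_bx]
    unfold nv at e1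
    simp only [Prod.fst_sub, Prod.snd_sub] at e1
    refine ⟨by omega, (t, -(n : ℤ)), hW t (by omega) (by omega), hr.mono ?_⟩
    refine Set.inter_subset_inter_right _ ?_
    unfold Rb boxE
    exact_mod_cast RE_subset (by omega) (by omega) le_rfl (by omega)
  unfold NW
  calc (J.card : ℝ) * N = ∑ i ∈ J, N := by rw [Finset.sum_const, nsmul_eq_mul]
    _ ≤ ∑ i ∈ J, ((T i).card : ℝ) := Finset.sum_le_sum fun i hi => hT1 i hi
    _ = ((J.biUnion T).card : ℝ) := by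
        rw [Finset.card_biUnion hdis]
        push_cast
        rfl
    _ ≤ _ := by
        convert (Nat.cast_le (α := ℝ)).mpr (Finset.card_le_card hsub)

theorem seg_le {n : ℕ} {a b : ℤ} (ha : -(n : ℤ) ≤ a) (hb : b ≤ n) (hab : a ≤ b) {W : Finset Vtx}
    (hW : ∀ t : ℤ, a ≤ t → t ≤ b → ((t, -(n : ℤ)) : Vtx) ∈ W) (F : Finset Edg) :
    ((b : ℝ) - a + 1) ≤ (NW n W F : ℝ) := by
  classical
  have hsub : (Finset.Icc a b).image (fun t => ((t, -(n : ℤ)) : Vtx)) ⊆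
      (bx n).filter (fun v => ∃ w ∈ W, Reach (↑F ∩ ↑(boxE n)) v w) := by
    intro u hu
    rw [Finset.mem_image] at hu
    obtain ⟨t, ht, rfl⟩ := hu
    rw [Finset.mem_Icc] at ht
    rw [Finset.mem_filter, w_mem_bx]
    exact ⟨by simp only; omega, _, hW t ht.1 ht.2, Reach.refl _ _⟩
  have h1 : ((Finset.Icc a b).image (fun t => ((t, -(n : ℤ)) : Vtx))).card = (b + 1 - a).toNat := by
    rw [Finset.card_image_of_injective _ (fun s t h => (Prod.mk.inj h).1), Int.card_Icc]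
  have h2 := Finset.card_le_card hsub
  rw [h1] at h2
  have h3 : (b : ℝ) - a + 1 = (((b + 1 - a).toNat : ℕ) : ℝ) := by
    have : ((b + 1 - a).toNat : ℤ) = b + 1 - a := Int.toNat_of_nonneg (by omega)
    have h4 : (((b + 1 - a).toNat : ℤ) : ℝ) = ((b + 1 - a : ℤ) : ℝ) := by rw [this]
    rw [← Int.cast_natCast, h4]
    push_cast
    ring
  rw [h3]
  unfold NW
  convert (Nat.cast_le (α := ℝ)).mpr h2

/-- the lower tail of the number of vertices connected to the boundary, upper bound -/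
theorem wired_up (hAr : ArS) (ρ : ℝ) (hρ : 0 < ρ) : ∃ c C : ℝ, 0 < c ∧ 0 < C ∧ ∀ n : ℕ, 1 ≤ n →
    ∀ a b : ℤ, -(n : ℤ) ≤ a → b ≤ n → ρ * n ≤ (b : ℝ) - a → ∀ W : Finset Vtx,
    (∀ t : ℤ, a ≤ t → t ≤ b → ((t, -(n : ℤ)) : Vtx) ∈ W) → ∀ x : ℝ, 1 ≤ x →
      Pr P (boxE n) (fun F => (NW n W F : ℝ) ≤ (n : ℝ) ^ (91 / 48 : ℝ) / x) ≤
        C * Real.exp (-(c * x ^ (48 / 43 : ℝ))) := by
  obtain ⟨a0, c1, ha0, hc1, hbt⟩ := bt_prob
  obtain ⟨c0, C0, hc0, hC0, har⟩ := hAr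
  set κ : ℝ := c1 * a0 * c0 / 56 * ρ with hκ
  have hκ0 : 0 < κ := by positivity
  set G : ℝ := max 1 (max ((1 / κ) ^ (48 / 43 : ℝ)) ((1 / ρ) ^ (48 / 43 : ℝ))) with hG
  have hG1 : 1 ≤ G := le_max_left _ _
  have hG0 : 0 < G := by linarith
  have hGp : ∀ s : ℝ, 0 < s → (1 / s) ^ (48 / 43 : ℝ) ≤ G → 1 ≤ s * G ^ (43 / 48 : ℝ) := by
    intro s hs h
    have h1 : ((1 / s) ^ (48 / 43 : ℝ)) ^ (43 / 48 : ℝ) ≤ G ^ (43 / 48 : ℝ) :=
      Real.rpow_le_rpow (by positivity) h (by norm_num)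
    rw [← Real.rpow_mul (by positivity)] at h1
    norm_num at h1
    calc (1 : ℝ) = s * s⁻¹ := (mul_inv_cancel₀ hs.ne').symm
      _ ≤ _ := mul_le_mul_of_nonneg_left h1 hs.le
  have hGκ := hGp κ hκ0 ((le_max_left _ _).trans (le_max_right _ _))
  have hGρ := hGp ρ hρ ((le_max_right _ _).trans (le_max_right _ _))
  set c : ℝ := c1 / 4 * (ρ / (42 * G)) with hc
  have hc0' : 0 < c := by positivity
  refine ⟨c, Real.exp (c * (42 * G / ρ)), hc0', Real.exp_pos _,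
    fun n hn a b ha hb hab W hW x hx => ?_⟩
  have hn1 : (1 : ℝ) ≤ n := by exact_mod_cast hn
  have hn0 : (0 : ℝ) < n := by linarith
  have hx0 : 0 < x := by linarith
  set t : ℝ := x ^ (48 / 43 : ℝ) with ht
  have ht0 : 0 < t := by positivity
  have htθ : t ^ (43 / 48 : ℝ) = x := by
    rw [ht, ← Real.rpow_mul hx0.le]
    norm_num
  rcases lt_or_ge t (42 * G / ρ) with htG | htG
  · refine (Pr_le_one w_ok _ _).trans ?_
    rw [← Real.exp_add]
    apply Real.one_le_exp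
    nlinarith
  have hC1 : 1 ≤ Real.exp (c * (42 * G / ρ)) := Real.one_le_exp (by positivity)
  have e5 : (n : ℝ) ^ (91 / 48 : ℝ) = n * (n : ℝ) ^ (43 / 48 : ℝ) := by
    nth_rewrite 2 [← Real.rpow_one (n : ℝ)]
    rw [← Real.rpow_add hn0]
    norm_num
  set y : ℝ := G * n / t with hy
  have hy0 : 0 < y := by positivity
  have hyp : y ^ (43 / 48 : ℝ) = G ^ (43 / 48 : ℝ) * (n : ℝ) ^ (43 / 48 : ℝ) / x := by
    rw [hy, Real.div_rpow (by positivity) ht0.le, htθ, Real.mul_rpow hG0.le hn0.le]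
  rcases lt_or_ge y 1 with hy1 | hy1
  · -- impossible event
    have h1 : Pr P (boxE n) (fun F => (NW n W F : ℝ) ≤ (n : ℝ) ^ (91 / 48 : ℝ) / x) ≤ 0 := by
      rw [← Ex_const P (boxE n) 0]
      unfold Pr
      apply Ex_mono w_ok
      intro F _
      rw [ind_not_of]
      intro hF
      have hab' : a ≤ b := by
        have : (0 : ℝ) ≤ (b : ℝ) - a := le_trans (by positivity) hab
        have : (a : ℝ) ≤ b := by linarith
        exact_mod_cast this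
      have h2 := seg_le ha hb hab' hW F
      have h3 : y ^ (43 / 48 : ℝ) ≤ 1 := Real.rpow_le_one hy0.le hy1.le (by norm_num)
      rw [hyp, div_le_one hx0] at h3
      have h4 : (n : ℝ) ^ (91 / 48 : ℝ) / x ≤ ρ * n := by
        rw [div_le_iff₀ hx0, e5]
        have h5 : (n : ℝ) ^ (43 / 48 : ℝ) ≤ ρ * x := by
          calc (n : ℝ) ^ (43 / 48 : ℝ) = 1 * (n : ℝ) ^ (43 / 48 : ℝ) := (one_mul _).symm
            _ ≤ (ρ * G ^ (43 / 48 : ℝ)) * (n : ℝ) ^ (43 / 48 : ℝ) :=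
                mul_le_mul_of_nonneg_right hGρ (by positivity)
            _ = ρ * (G ^ (43 / 48 : ℝ) * (n : ℝ) ^ (43 / 48 : ℝ)) := by ring
            _ ≤ ρ * x := mul_le_mul_of_nonneg_left h3 hρ.le
        calc n * (n : ℝ) ^ (43 / 48 : ℝ) ≤ n * (ρ * x) := mul_le_mul_of_nonneg_left h5 hn0.le
          _ = _ := by ring
      linarith
    exact h1.trans (by positivity)
  -- main case
  set r : ℕ := ⌈y⌉₊ + 1 with hr
  have hyr : y ≤ r := by
    rw [hr]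
    push_cast
    linarith [Nat.le_ceil y]
  have hry : (r : ℝ) ≤ 3 * y := by
    rw [hr]
    push_cast
    linarith [Nat.ceil_lt_add_one hy0.le]
  have hr2 : 2 ≤ r := by
    have : 1 ≤ ⌈y⌉₊ := Nat.one_le_ceil_iff.mpr hy0
    omega
  have hr0 : (0 : ℝ) < r := by exact_mod_cast (by omega : 0 < r)
  have hrn : 14 * (r : ℝ) ≤ ρ * n := by
    have h1 : 42 * y ≤ ρ * n := by
      rw [hy, ← mul_div_assoc, div_le_iff₀ ht0]
      rw [div_le_iff₀ hρ] at htG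
      nlinarith
    linarith
  have hρn : ρ * n ≤ 2 * n := by
    refine hab.trans ?_
    have h1 : -(n : ℝ) ≤ a := by exact_mod_cast ha
    have h2 : (b : ℝ) ≤ n := by exact_mod_cast hb
    linarith
  have h5r : 5 * r ≤ 2 * n := by
    have : (5 : ℝ) * r ≤ 2 * n := by linarith
    exact_mod_cast this
  have hba0 : 0 ≤ b - a := by
    have : (0 : ℝ) ≤ (b : ℝ) - a := le_trans (by positivity) hab
    have : (a : ℝ) ≤ b := by linarith
    have : a ≤ b := by exact_mod_cast this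
    omega
  obtain ⟨l, hl⟩ : ∃ l : ℕ, (l : ℤ) = b - a + 1 := ⟨(b - a + 1).toNat,
    Int.toNat_of_nonneg (by omega)⟩
  have hlR : (l : ℝ) = (b : ℝ) - a + 1 := by
    have : ((l : ℤ) : ℝ) = ((b - a + 1 : ℤ) : ℝ) := by rw [hl]
    push_cast at this
    exact this
  set k : ℕ := l / (6 * r + 1) with hk
  have hk1 : (6 * r + 1) * k ≤ l := Nat.mul_div_le l (6 * r + 1)
  have hk1' : ((6 * r + 1) * k : ℤ) ≤ b - a + 1 := by
    rw [← hl]
    exact_mod_cast hk1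
  have hk2 : ρ * n / (14 * r) ≤ k := by
    have h1 : l < (6 * r + 1) * (k + 1) := Nat.lt_mul_div_succ l (by omega)
    have h2 : (l : ℝ) < (6 * r + 1) * (k + 1) := by exact_mod_cast h1
    have h3 : (6 * (r : ℝ) + 1) ≤ 7 * r := by
      have : (1 : ℝ) ≤ r := by exact_mod_cast (by omega : 1 ≤ r)
      linarith
    have h4 : ρ * n ≤ 7 * r * (k + 1) := by
      have : (0 : ℝ) ≤ (k : ℝ) + 1 := by positivity
      nlinarith
    rw [div_le_iff₀ (by positivity)]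
    nlinarith
  set N : ℝ := a0 * ((r : ℝ) ^ 2 * ar r) with hN
  have hN0 : 0 < N := by
    have := ar_pos r
    positivity
  have hNlo : a0 * c0 * (r : ℝ) ^ (91 / 48 : ℝ) ≤ N := by
    have h1 := (har r (by omega)).1
    have hpw : (r : ℝ) ^ 2 * (r : ℝ) ^ (-(5 / 48 : ℝ)) = (r : ℝ) ^ (91 / 48 : ℝ) := by
      rw [← Real.rpow_natCast (r : ℝ) 2, ← Real.rpow_add hr0]
      norm_num
    rw [hN, ← hpw]
    calc a0 * c0 * ((r : ℝ) ^ 2 * (r : ℝ) ^ (-(5 / 48 : ℝ))) =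
        a0 * ((r : ℝ) ^ 2 * (c0 * (r : ℝ) ^ (-(5 / 48 : ℝ)))) := by ring
      _ ≤ _ := by
          apply mul_le_mul_of_nonneg_left _ ha0.le
          exact mul_le_mul_of_nonneg_left h1 (by positivity)
  have hsubs : ∀ i ∈ range k, Rb n r (zz a r i) ⊆ boxE n := by
    intro i hi
    have g1 := zz_lo a r i
    have g2 := zz_hi hk1' (Finset.mem_range.mp hi)
    have h5' : 5 * (r : ℤ) ≤ 2 * n := by exact_mod_cast h5r
    unfold Rb boxE
    exact RE_subset (by omega) (by omega) le_rfl (by omega)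
  have hch := chernoff w_ok (U := boxE n) (range k)
    (fun i => Bt n r (zz a r i) N) (fun i => Rb n r (zz a r i)) hsubs
    (by
      intro i _ j _ hne
      rcases Nat.lt_or_gt_of_ne hne with h | h
      · exact Rb_disj (zz_sep h)
      · exact (Rb_disj (zz_sep h)).symm)
    (fun i _ F => Bt_local n r (zz a r i) N F) hc1.le
    (fun i hi => hbt n r (zz a r i) hr2 (boxE n) (hsubs i hi))
  rw [Finset.card_range] at hch
  have hkey : (n : ℝ) ^ (91 / 48 : ℝ) / x ≤ c1 / 4 * k * N := by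
    have e6 : (r : ℝ) ^ (91 / 48 : ℝ) = r * (r : ℝ) ^ (43 / 48 : ℝ) := by
      nth_rewrite 2 [← Real.rpow_one (r : ℝ)]
      rw [← Real.rpow_add hr0]
      norm_num
    have h1 : y ^ (43 / 48 : ℝ) ≤ (r : ℝ) ^ (43 / 48 : ℝ) :=
      Real.rpow_le_rpow hy0.le hyr (by norm_num)
    calc (n : ℝ) ^ (91 / 48 : ℝ) / x = 1 * (n * ((n : ℝ) ^ (43 / 48 : ℝ) / x)) := by
          rw [e5]
          ring
      _ ≤ (κ * G ^ (43 / 48 : ℝ)) * (n * ((n : ℝ) ^ (43 / 48 : ℝ) / x)) :=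
          mul_le_mul_of_nonneg_right hGκ (by positivity)
      _ = κ * n * y ^ (43 / 48 : ℝ) := by
          rw [hyp]
          ring
      _ ≤ κ * n * (r : ℝ) ^ (43 / 48 : ℝ) := mul_le_mul_of_nonneg_left h1 (by positivity)
      _ = c1 / 4 * (ρ * n / (14 * r)) * (a0 * c0 * (r : ℝ) ^ (91 / 48 : ℝ)) := by
          rw [hκ, e6]
          field_simp
          ring
      _ ≤ c1 / 4 * k * N := by
          apply mul_le_mul _ hNlo (by positivity) (by positivity)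
          exact mul_le_mul_of_nonneg_left hk2 (by positivity)
  have hprob : Pr P (boxE n) (fun F => (NW n W F : ℝ) ≤ (n : ℝ) ^ (91 / 48 : ℝ) / x) ≤
      Real.exp (-(c1 / 4 * k)) := by
    refine le_trans (Pr_mono w_ok ?_) hch
    intro F _ hF
    have h1 := NW_ge (N := N) (F := F) ha hb h5r hk1' hW
    have h2 : (∑ i ∈ range k, ind (Bt n r (zz a r i) N F)) * N ≤ c1 / 4 * k * N :=
      h1.trans (hF.trans hkey)
    exact le_of_mul_le_mul_right h2 hN0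
  refine hprob.trans ?_
  have h9 : c * t ≤ c1 / 4 * k := by
    have h1 : ρ / (42 * G) * t ≤ k := by
      refine le_trans ?_ hk2
      rw [le_div_iff₀ (by positivity)]
      have h2 : 14 * (r : ℝ) ≤ 42 * y := by linarith
      have h3 : t * y = G * n := by
        rw [hy]
        field_simp
      calc ρ / (42 * G) * t * (14 * r) ≤ ρ / (42 * G) * t * (42 * y) :=
            mul_le_mul_of_nonneg_left h2 (by positivity)
        _ = ρ / (42 * G) * (42 * (t * y)) := by ring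
        _ = ρ * n := by
            rw [h3]
            field_simp
    rw [hc, mul_assoc]
    exact mul_le_mul_of_nonneg_left h1 (by positivity)
  calc Real.exp (-(c1 / 4 * k)) ≤ Real.exp (-(c * t)) := Real.exp_le_exp.mpr (by linarith)
    _ = 1 * Real.exp (-(c * t)) := (one_mul _).symm
    _ ≤ _ := mul_le_mul_of_nonneg_right hC1 (Real.exp_pos _).le

end Pool.Agent.X135.VT
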